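import Pool.Agent.Work.MP_c4d05f_lc.Defs

/-!
Shortest paths are induced paths.
-/

set_option autoImplicit false

namespace Pool.Agent.Work.MP_c4d05f_lc

variable {V : Type*} {G : SimpleGraph V}

theorem IndPath.mono {m : ℕ} {u : ℕ → V} (h : IndPath G m u)
    {k : ℕ} (hk : k ≤ m) : IndPath G k u :=
  fun i j hij hj => h i j hij (hj.trans hk)

theorem reach_induce {A : Set V} {a b : V} (ha : a ∈ A) (h : Reach G A a b) :
    ∃ hb : b ∈ A, (G.induce A).Reachable ⟨a, ha⟩ ⟨b, hb⟩ := by
  induction h with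
  | refl => exact ⟨ha, SimpleGraph.Reachable.refl _⟩
  | @tail b c _ hbc ih =>
    obtain ⟨hb, ih⟩ := ih
    refine ⟨hbc.2, ih.trans (SimpleGraph.Adj.reachable ?_)⟩
    simpa using hbc.1

theorem exists_indPath_of_reachable {W : Type*} {H : SimpleGraph W} {a b : W}
    (h : H.Reachable a b) :
    ∃ (m : ℕ) (u : ℕ → W), IndPath H m u ∧ u 0 = a ∧ u m = b := by
  obtain ⟨p, hp⟩ := h.exists_walk_length_eq_dist
  have hd : ∀ i j, i ≤ j → j ≤ p.length →
      H.Reachable (p.getVert i) (p.getVert j) ∧ H.dist (p.getVert i) (p.getVert j) = j - i := by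
    intro i j hij hj
    have hlen : ∀ i j, i ≤ j → j ≤ p.length → ∃ q : H.Walk (p.getVert i) (p.getVert j),
        q.length = j - i := by
      intro i j hij hj
      have h1 : ((p.take j).drop i).length = j - i := by
        rw [SimpleGraph.Walk.drop_length, SimpleGraph.Walk.take_length]
        omega
      refine ⟨((p.take j).drop i).copy ?_ rfl, ?_⟩
      · rw [SimpleGraph.Walk.take_getVert]
        congr 1
        omega
      · rw [SimpleGraph.Walk.length_copy, h1]
    obtain ⟨q, hq⟩ := hlen i j hij hj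
    obtain ⟨q0, hq0⟩ := hlen 0 i (Nat.zero_le _) (hij.trans hj)
    obtain ⟨q1, hq1⟩ := hlen j p.length hj le_rfl
    refine ⟨⟨q⟩, le_antisymm (hq ▸ H.dist_le q) ?_⟩
    obtain ⟨r, hr⟩ := (show H.Reachable (p.getVert i) (p.getVert j) from ⟨q⟩).exists_walk_length_eq_dist
    have h2 := H.dist_le ((q0.append (r.append q1)).copy (p.getVert_zero) (p.getVert_length))
    rw [SimpleGraph.Walk.length_copy, SimpleGraph.Walk.length_append,
      SimpleGraph.Walk.length_append, ← hp, hq0, hq1, hr] at h2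
    omega
  refine ⟨p.length, p.getVert, fun i j hij hj => ?_, p.getVert_zero, p.getVert_length⟩
  obtain ⟨-, h2⟩ := hd i j hij.le hj
  refine ⟨fun he => ?_, fun hadj => ?_, fun he => ?_⟩
  · rw [he, SimpleGraph.dist_self] at h2; omega
  · rw [SimpleGraph.dist_eq_one_iff_adj.2 hadj] at h2; omega
  · subst he
    exact p.adj_getVert_succ (by omega)

/-- Shortest paths are induced paths. -/
theorem exists_indPath (G : SimpleGraph V) (A : Set V) {a b : V} (ha : a ∈ A)
    (h : Reach G A a b) :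
    ∃ (m : ℕ) (u : ℕ → V), IndPath G m u ∧ u 0 = a ∧ u m = b ∧ ∀ i ≤ m, u i ∈ A := by
  obtain ⟨hb, h⟩ := reach_induce ha h
  obtain ⟨m, u, hu, h0, hm⟩ := exists_indPath_of_reachable h
  refine ⟨m, fun i => (u i : V), fun i j hij hj => ?_, by simp [h0], by simp [hm],
    fun i _ => (u i).2⟩
  obtain ⟨h1, h2⟩ := hu i j hij hj
  exact ⟨fun he => h1 (Subtype.ext he), by simpa using h2⟩

/-- An induced path with `k` vertices is an induced copy of `P_k`. -/
theorem IndPath.embed {m : ℕ} {u : ℕ → V} (h : IndPath G m u) {k : ℕ} (hk : k ≤ m + 1) :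
    Nonempty (SimpleGraph.pathGraph k ↪g G) := by
  have key : ∀ i j : Fin k, (i : ℕ) < j → u i ≠ u j ∧ (G.Adj (u i) (u j) ↔ (j : ℕ) = i + 1) :=
    fun i j hij => h i j hij (by omega)
  have hinj : Function.Injective (fun i : Fin k => u i) := by
    intro i j hij
    rcases lt_trichotomy (i : ℕ) j with h1 | h1 | h1
    · exact absurd hij (key i j h1).1
    · exact Fin.ext h1
    · exact absurd hij.symm (key j i h1).1
  refine ⟨⟨⟨fun i => u i, hinj⟩, ?_⟩⟩
  intro i j
  change G.Adj (u i) (u j) ↔ (SimpleGraph.pathGraph k).Adj i j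
  rw [SimpleGraph.pathGraph_adj]
  rcases lt_trichotomy (i : ℕ) j with h1 | h1 | h1
  · rw [(key i j h1).2]; omega
  · have : i = j := Fin.ext h1
    subst this
    exact iff_of_false (fun hc => hc.ne rfl) (by omega)
  · rw [G.adj_comm, (key j i h1).2]; omega

end Pool.Agent.Work.MP_c4d05f_lc
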