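import Pool.Agent.Work.MP_c4d05f_lc.Ram
import Pool.Agent.Work.MP_c4d05f_lc.SP

/-!
The theorem of Galvin, Rival and Sands: a long path without a complete bipartite graph on its
vertices carries a long induced path.
-/

set_option autoImplicit false

namespace Pool.Agent.Work.MP_c4d05f_lc

theorem grs_nat (k t : ℕ) : ∃ N : ℕ, ∀ H : SimpleGraph ℕ,
    (∀ i, i + 1 < N → H.Adj i (i + 1)) →
    (∀ a b : ℕ → ℕ, (∀ i < t, a i < N ∧ b i < N) →
      (∀ i < t, ∀ j < t, a i = a j → i = j) → (∀ i < t, ∀ j < t, b i = b j → i = j) →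
      ¬ ∀ i < t, ∀ j < t, H.Adj (a i) (b j)) →
    ∃ u : ℕ → ℕ, IndPath H k u ∧ ∀ i ≤ k, u i < N := by
  classical
  obtain ⟨N, hN⟩ := ramsey4 (Fin (k + 1) → Fin (k + 1) → Prop) (k + 3 + (4 * t + 4))
  refine ⟨N, ?_⟩
  intro H hpath hK
  by_contra hno
  push Not at hno
  -- induced paths inside intervals
  have hreach : ∀ i j l, i ≤ l → l ≤ j → j < N → Reach H (Set.Icc i j) i l := by
    intro i j l hil
    induction l, hil using Nat.le_induction with
    | base => intro _ _; exact Relation.ReflTransGen.refl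
    | succ l hl ih =>
      intro hlj hjN
      exact (ih (by omega) hjN).tail ⟨hpath l (by omega), ⟨by omega, hlj⟩⟩
  have hex : ∀ i j, ∃ (m : ℕ) (v : ℕ → ℕ), i < j → j < N →
      IndPath H m v ∧ v 0 = i ∧ v m = j ∧ (∀ s ≤ m, i ≤ v s ∧ v s ≤ j) ∧ m < k := by
    intro i j
    by_cases hij : i < j ∧ j < N
    · obtain ⟨m, v, h1, h2, h3, h4⟩ := exists_indPath H (Set.Icc i j) (a := i) (b := j)
        ⟨le_refl i, hij.1.le⟩ (hreach i j j hij.1.le le_rfl hij.2)
      refine ⟨m, v, fun _ _ => ⟨h1, h2, h3, fun s hs => h4 s hs, ?_⟩⟩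
      by_contra hmk
      push Not at hmk
      obtain ⟨l, hl, hl2⟩ := hno v (h1.mono hmk)
      have := (h4 l (hl.trans hmk)).2
      omega
    · exact ⟨0, fun _ => 0, fun h1 h2 => absurd ⟨h1, h2⟩ hij⟩
  choose m v hv using hex
  obtain ⟨f, κ, hf, hfN, hκ⟩ := hN (fun a b p q => fun s s' =>
    H.Adj (v a b (min s.1 (m a b))) (v p q (min s'.1 (m p q))))
  have hV : ∀ i j, i < j → j < k + 3 + (4 * t + 4) → IndPath H (m (f i) (f j)) (v (f i) (f j)) ∧
      v (f i) (f j) 0 = f i ∧ v (f i) (f j) (m (f i) (f j)) = f j ∧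
      (∀ s ≤ m (f i) (f j), f i ≤ v (f i) (f j) s ∧ v (f i) (f j) s ≤ f j) ∧
      m (f i) (f j) < k := fun i j hij hj => hv (f i) (f j) (hf hij) (hfN j hj)
  -- the constant colour is identically false
  have hfalse : ∀ s s' : Fin (k + 1), ¬ κ s s' := by
    intro s s' hs
    have hI : ∀ p, p < 2 * t → f (2 * p) ≤
        v (f (2 * p)) (f (2 * p + 1)) (min s.1 (m (f (2 * p)) (f (2 * p + 1)))) ∧
        v (f (2 * p)) (f (2 * p + 1)) (min s.1 (m (f (2 * p)) (f (2 * p + 1)))) ≤
          f (2 * p + 1) := fun p hp =>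
      (hV (2 * p) (2 * p + 1) (by omega) (by omega)).2.2.2.1 _ (min_le_right _ _)
    have hI' : ∀ p, p < 2 * t → f (2 * p) ≤
        v (f (2 * p)) (f (2 * p + 1)) (min s'.1 (m (f (2 * p)) (f (2 * p + 1)))) ∧
        v (f (2 * p)) (f (2 * p + 1)) (min s'.1 (m (f (2 * p)) (f (2 * p + 1)))) ≤
          f (2 * p + 1) := fun p hp =>
      (hV (2 * p) (2 * p + 1) (by omega) (by omega)).2.2.2.1 _ (min_le_right _ _)
    have hdis : ∀ p q, p < q → f (2 * p + 1) < f (2 * q) := fun p q hpq => hf (by omega)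
    apply hK
      (fun p => v (f (2 * p)) (f (2 * p + 1)) (min s.1 (m (f (2 * p)) (f (2 * p + 1)))))
      (fun q => v (f (2 * (t + q))) (f (2 * (t + q) + 1))
        (min s'.1 (m (f (2 * (t + q))) (f (2 * (t + q) + 1)))))
    · intro i hi
      refine ⟨lt_of_le_of_lt (hI i (by omega)).2 (hfN _ (by omega)),
        lt_of_le_of_lt (hI' (t + i) (by omega)).2 (hfN _ (by omega))⟩
    · intro i hi j hj hij
      rcases lt_trichotomy i j with h | h | h
      · have h1 := (hI i (by omega)).2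
        have h2 := (hI j (by omega)).1
        have h3 := hdis i j h
        omega
      · exact h
      · have h1 := (hI j (by omega)).2
        have h2 := (hI i (by omega)).1
        have h3 := hdis j i h
        omega
    · intro i hi j hj hij
      rcases lt_trichotomy i j with h | h | h
      · have h1 := (hI' (t + i) (by omega)).2
        have h2 := (hI' (t + j) (by omega)).1
        have h3 := hdis (t + i) (t + j) (by omega)
        omega
      · exact h
      · have h1 := (hI' (t + j) (by omega)).2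
        have h2 := (hI' (t + i) (by omega)).1
        have h3 := hdis (t + j) (t + i) (by omega)
        omega
    · intro i hi j hj
      have h1 := hκ (2 * i) (2 * i + 1) (2 * (t + j)) (2 * (t + j) + 1) (by omega) (by omega)
        (by omega) (by omega)
      have h2 : κ s s' := hs
      rw [← h1] at h2
      exact h2
  -- the union of the paths
  let W : Set ℕ := {w | ∃ s ≤ k, ∃ i ≤ m (f s) (f (s + 1)), w = v (f s) (f (s + 1)) i}
  have hWN : ∀ w ∈ W, w < N := by
    rintro w ⟨s, hs, i, hi, rfl⟩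
    exact lt_of_le_of_lt ((hV s (s + 1) (by omega) (by omega)).2.2.2.1 i hi).2
      (hfN _ (by omega))
  have hW0 : f 0 ∈ W := by
    refine ⟨0, Nat.zero_le _, 0, Nat.zero_le _, ?_⟩
    exact (hV 0 1 (by omega) (by omega)).2.1.symm
  have hR1 : ∀ s ≤ k, ∀ i, i ≤ m (f s) (f (s + 1)) →
      Reach H W (f s) (v (f s) (f (s + 1)) i) := by
    intro s hs i
    induction i with
    | zero =>
      intro _
      rw [(hV s (s + 1) (by omega) (by omega)).2.1]
      exact Relation.ReflTransGen.refl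
    | succ i ih =>
      intro hi
      refine (ih (by omega)).tail ⟨?_, ⟨s, hs, i + 1, hi, rfl⟩⟩
      exact ((hV s (s + 1) (by omega) (by omega)).1 i (i + 1) (by omega) hi).2.2 rfl
  have hR : ∀ s, s ≤ k + 1 → Reach H W (f 0) (f s) := by
    intro s
    induction s with
    | zero => intro _; exact Relation.ReflTransGen.refl
    | succ s ih =>
      intro hs
      have h1 := hR1 s (by omega) _ le_rfl
      rw [(hV s (s + 1) (by omega) (by omega)).2.2.1] at h1
      exact (ih (by omega)).trans h1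
  obtain ⟨n, w, hw1, hw2, hw3, hw4⟩ := exists_indPath H W hW0 (hR (k + 1) le_rfl)
  have hlev : ∀ i, i ≤ n → ∃ s, s ≤ i ∧ s ≤ k ∧ ∃ l ≤ m (f s) (f (s + 1)),
      w i = v (f s) (f (s + 1)) l := by
    intro i
    induction i with
    | zero =>
      intro _
      refine ⟨0, le_rfl, Nat.zero_le _, 0, Nat.zero_le _, ?_⟩
      rw [hw2, (hV 0 (0 + 1) (by omega) (by omega)).2.1]
    | succ i ih =>
      intro hi
      obtain ⟨s, hs1, hs2, l, hl1, hl2⟩ := ih (by omega)
      obtain ⟨s', hs', l', hl', hl2'⟩ := hw4 (i + 1) hi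
      by_cases hle : s' ≤ s + 1
      · exact ⟨s', by omega, hs', l', hl', hl2'⟩
      · exfalso
        have hadj : H.Adj (w i) (w (i + 1)) := (hw1 i (i + 1) (by omega) hi).2.2 rfl
        have hm1 := (hV s (s + 1) (by omega) (by omega)).2.2.2.2
        have hm2 := (hV s' (s' + 1) (by omega) (by omega)).2.2.2.2
        apply hfalse ⟨l, by omega⟩ ⟨l', by omega⟩
        have h1 := hκ s (s + 1) s' (s' + 1) (by omega) (by omega) (by omega) (by omega)
        rw [← h1]
        simp only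
        rw [min_eq_left hl1, min_eq_left hl', ← hl2, ← hl2']
        exact hadj
  obtain ⟨s, hs1, hs2, l, hl1, hl2⟩ := hlev n le_rfl
  have h5 := ((hV s (s + 1) (by omega) (by omega)).2.2.2.1 l hl1).2
  rw [← hl2, hw3] at h5
  have h6 : k + 1 ≤ s + 1 := hf.le_iff_le.1 h5
  obtain ⟨i, hi1, hi2⟩ := hno w (hw1.mono (by omega : k ≤ n))
  have := hWN _ (hw4 i (by omega))
  omega

/-- Galvin, Rival and Sands. -/
theorem grs (k t : ℕ) : ∃ N : ℕ, ∀ (V : Type) (G : SimpleGraph V) (x : ℕ → V),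
    (∀ i j, i < N → j < N → x i = x j → i = j) →
    (∀ i, i + 1 < N → G.Adj (x i) (x (i + 1))) →
    (∀ a b : ℕ → ℕ, (∀ i < t, a i < N ∧ b i < N) →
      (∀ i < t, ∀ j < t, a i = a j → i = j) → (∀ i < t, ∀ j < t, b i = b j → i = j) →
      ¬ ∀ i < t, ∀ j < t, G.Adj (x (a i)) (x (b j))) →
    ∃ u : ℕ → V, IndPath G k u ∧ ∀ i ≤ k, ∃ j < N, u i = x j := by
  obtain ⟨N, hN⟩ := grs_nat k t
  refine ⟨N, ?_⟩
  intro V G x hinj hpath hK
  obtain ⟨u, hu, huN⟩ := hN (G.comap x) (fun i hi => hpath i hi) (fun a b h1 h2 h3 h4 =>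
    hK a b h1 h2 h3 h4)
  refine ⟨fun i => x (u i), ?_, fun i hi => ⟨u i, huN i hi, rfl⟩⟩
  intro i j hij hj
  obtain ⟨h1, h2⟩ := hu i j hij hj
  refine ⟨fun h => h1 (hinj _ _ (huN i (by omega)) (huN j hj) h), ?_⟩
  exact h2

end Pool.Agent.Work.MP_c4d05f_lc
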