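import Pool.Agent.Work.MP_c4d05f_lc.Compl
import Pool.Agent.Work.MP_c4d05f_lc.Grs

/-!
The algorithm is correct on graphs without long induced paths.
-/

set_option autoImplicit false

namespace Pool.Agent.Work.MP_c4d05f_lc

open Pool.Agent.Work.PolyTime

/-- In a 4-cycle, adjacent vertices have different colours. -/
theorem Col.c4 {V : Type*} {G : SimpleGraph V} {A β : Set V} (h : Col G A β) {a b c d : V}
    (ha : a ∈ A) (hb : b ∈ A) (hc : c ∈ A) (hd : d ∈ A) (hab : G.Adj a b) (hbc : G.Adj b c)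
    (hcd : G.Adj c d) (hda : G.Adj d a) (hac : a ≠ c) (hbd : b ≠ d) : a ∈ β ↔ b ∉ β := by
  have key : ¬ (a ∈ β ∧ b ∈ β) := by
    rintro ⟨haβ, hbβ⟩
    obtain ⟨v, -, -, -, huni⟩ := h.2 a ha haβ
    obtain ⟨v', -, -, -, huni'⟩ := h.2 b hb hbβ
    rcases h.1 c hc d hd hcd with h1 | h1
    · exact hac ((huni' a ha haβ hab.symm).trans (huni' c hc h1 hbc).symm)
    · exact hbd ((huni b hb hbβ hab).trans (huni d hd h1 hda.symm).symm)
  constructor
  · exact fun h1 h2 => key ⟨h1, h2⟩
  · intro h1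
    exact (h.1 a ha b hb hab).resolve_right h1

theorem algo_complete (k : ℕ) : ∃ N : ℕ, ∀ x : Inp,
    (∀ u : ℕ → ℕ, IndPath (ng x) k u → ¬ ∀ i ≤ k, u i < x.1) →
    (∃ β, Col (ng x) {u | u < x.1} β) → algo N x = true := by
  obtain ⟨N, hN⟩ := grs k (k + 2)
  refine ⟨N, fun x hx ⟨β, hβ⟩ => ?_⟩
  have hk : ∀ (m : ℕ) (u : ℕ → ℕ), IndPath (ng x) m u → (∀ i ≤ m, u i < x.1) → m < k := by
    intro m u hu hn
    by_contra hcon
    exact hx u (hu.mono (by omega)) (fun i hi => hn i (by omega))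
  by_contra hcon
  have hcon' : ∃ v < x.1, solve x N (reachL x (List.range x.1) v, [], v) = false := by
    by_contra h
    push Not at h
    apply hcon
    simp only [algo, List.all_eq_true, List.mem_range]
    intro v hv
    simpa using h v hv
  obtain ⟨v, hv, hsol⟩ := hcon'
  have hv' : v ∈ List.range x.1 := List.mem_range.2 hv
  have hA : st (List.range x.1) = {u | u < x.1} := by ext u; simp
  have hK : st (reachL x (List.range x.1) v) = Comp (ng x) {u | u < x.1} v := by
    ext u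
    rw [← hA]
    exact mem_reachL hv'
  obtain ⟨P, hlen, -, hchain, hnodup, hPsub, hbic⟩ := solve_complete x β k hk N _ (by
    change v ∈ st (reachL x (List.range x.1) v)
    rw [hK]; exact self_mem_comp v) (fun w hw => List.mem_range.1 (reachL_subset hw)) (by
    change Col (ng x) (st (reachL x (List.range x.1) v)) β
    rw [hK]
    have h1 := Col.restrict (G := ng x) (A := {u | u < x.1}) (I := fun _ _ => False) hβ
      (fun w c h => h.empty.elim) (w₀ := v) (by rw [alive_empty]; exact hv)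
    rwa [alive_empty] at h1) (by simp) hsol
  have hPn : ∀ u ∈ P, u < x.1 := fun u hu => List.mem_range.1 (reachL_subset (hPsub u hu))
  have hget : ∀ i < N, P.getD i 0 ∈ P := by
    intro i hi
    have hi' : i < P.length := by omega
    rw [List.getD_eq_getElem _ _ hi']
    exact List.getElem_mem hi'
  obtain ⟨u, hu, hu'⟩ := hN ℕ (ng x) (fun i => P.getD i 0) (by
      intro i j hi hj hij
      have hi' : i < P.length := by omega
      have hj' : j < P.length := by omega
      simp only [List.getD_eq_getElem _ _ hi', List.getD_eq_getElem _ _ hj'] at hij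
      exact (hnodup.getElem_inj_iff).1 hij) (by
      intro i hi
      have hi' : i < P.length := by omega
      have hj' : i + 1 < P.length := by omega
      simp only [List.getD_eq_getElem _ _ hi', List.getD_eq_getElem _ _ hj']
      exact (List.isChain_iff_getElem.1 hchain) i hj') (by
      intro a b hab ha hb hadj
      set L : Finset ℕ := (Finset.range (k + 2)).image fun i => P.getD (a i) 0 with hL
      set R : Finset ℕ := (Finset.range (k + 2)).image fun i => P.getD (b i) 0 with hR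
      have hinj : ∀ i j, i < N → j < N → P.getD i 0 = P.getD j 0 → i = j := by
        intro i j hi hj hij
        have hi' : i < P.length := by omega
        have hj' : j < P.length := by omega
        simp only [List.getD_eq_getElem _ _ hi', List.getD_eq_getElem _ _ hj'] at hij
        exact (hnodup.getElem_inj_iff).1 hij
      have hLc : L.card = k + 2 := by
        rw [hL, Finset.card_image_of_injOn, Finset.card_range]
        intro i hi j hj hij
        simp only [Finset.coe_range, Set.mem_Iio] at hi hj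
        exact ha i hi j hj (hinj _ _ (hab i hi).1 (hab j hj).1 hij)
      have hRc : R.card = k + 2 := by
        rw [hR, Finset.card_image_of_injOn, Finset.card_range]
        intro i hi j hj hij
        simp only [Finset.coe_range, Set.mem_Iio] at hi hj
        exact hb i hi j hj (hinj _ _ (hab i hi).2 (hab j hj).2 hij)
      have hLP : ∀ l ∈ L, l ∈ P := by
        intro l hl
        obtain ⟨i, hi, rfl⟩ := Finset.mem_image.1 hl
        exact hget _ (hab i (Finset.mem_range.1 hi)).1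
      have hRP : ∀ l ∈ R, l ∈ P := by
        intro l hl
        obtain ⟨i, hi, rfl⟩ := Finset.mem_image.1 hl
        exact hget _ (hab i (Finset.mem_range.1 hi)).2
      have hLR : ∀ l ∈ L, ∀ r ∈ R, (ng x).Adj l r := by
        intro l hl r hr
        obtain ⟨i, hi, rfl⟩ := Finset.mem_image.1 hl
        obtain ⟨j, hj, rfl⟩ := Finset.mem_image.1 hr
        exact hadj i (Finset.mem_range.1 hi) j (Finset.mem_range.1 hj)
      have hcol : ∀ l ∈ L, ∀ r ∈ R, (l ∈ β ↔ r ∉ β) := by
        intro l hl r hr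
        obtain ⟨l', hl', hne⟩ := Finset.exists_mem_ne (by omega : 1 < L.card) l
        obtain ⟨r', hr', hne'⟩ := Finset.exists_mem_ne (by omega : 1 < R.card) r
        exact hβ.c4 (hPn l (hLP l hl)) (hPn r (hRP r hr)) (hPn l' (hLP l' hl'))
          (hPn r' (hRP r' hr')) (hLR l hl r hr) (hLR l' hl' r hr).symm (hLR l' hl' r' hr')
          (hLR l hl r' hr').symm (Ne.symm hne) (Ne.symm hne')
      obtain ⟨l₀, hl₀⟩ : L.Nonempty := Finset.card_pos.1 (by omega)
      obtain ⟨r₀, hr₀⟩ : R.Nonempty := Finset.card_pos.1 (by omega)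
      by_cases hl : l₀ ∈ β
      · have hRn : ∀ r ∈ R, r ∉ β := fun r hr => (hcol l₀ hl₀ r hr).1 hl
        have hLy : ∀ l ∈ L, l ∈ β := fun l hl' => (hcol l hl' r₀ hr₀).2 (hRn r₀ hr₀)
        have := hbic R L hRP hLP (fun l hl r hr => (hLR r hr l hl).symm) (by omega) (by omega)
          hRn hLy
        omega
      · have hRy : ∀ r ∈ R, r ∈ β := fun r hr => by
          by_contra h
          exact hl ((hcol l₀ hl₀ r hr).2 h)
        have hLn : ∀ l ∈ L, l ∉ β := fun l hl' h =>
          (hcol l hl' r₀ hr₀).1 h (hRy r₀ hr₀)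
        have := hbic L R hLP hRP hLR (by omega) (by omega) hLn hRy
        omega)
  refine hx u hu (fun i hi => ?_)
  obtain ⟨j, hj, he⟩ := hu' i hi
  rw [he]
  exact hPn _ (hget j hj)

/-! ### The input graph on `Fin n` and dominating induced matchings -/

/-- The graph with vertices `0, …, n - 1` whose edges are the pairs in the list `E`
(pairs of equal numbers and pairs with an entry `≥ n` are ignored). -/
def graphOf (n : ℕ) (E : List (ℕ × ℕ)) : SimpleGraph (Fin n) :=
  SimpleGraph.fromRel fun u v => ((u : ℕ), (v : ℕ)) ∈ E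

/-- `M` is a dominating induced matching of `G`. -/
def IsDIM {V : Type*} (G : SimpleGraph V) (M : Set (Sym2 V)) : Prop :=
  M ⊆ G.edgeSet ∧
  (∀ e ∈ M, ∀ f ∈ M, e ≠ f → ∀ u ∈ e, ∀ v ∈ f, u ≠ v ∧ ¬ G.Adj u v) ∧
  ∀ e ∈ G.edgeSet, ∃ f ∈ M, ∃ v, v ∈ e ∧ v ∈ f

theorem exists_isDIM_iff {V : Type*} {G : SimpleGraph V} :
    (∃ M, IsDIM G M) ↔ ∃ β, Col G Set.univ β := by
  constructor
  · rintro ⟨M, h1, h2, h3⟩
    refine ⟨{v | ∃ e ∈ M, v ∈ e}, ?_, ?_⟩
    · intro u _ v _ hadj
      obtain ⟨f, hf, w, hw, hwf⟩ := h3 s(u, v) hadj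
      rcases Sym2.mem_iff.1 hw with rfl | rfl
      · exact Or.inl ⟨f, hf, hwf⟩
      · exact Or.inr ⟨f, hf, hwf⟩
    · rintro u - ⟨e, he, hue⟩
      obtain ⟨v, rfl⟩ := Sym2.mem_iff_exists.1 hue
      have hadj : G.Adj u v := h1 he
      refine ⟨v, trivial, ⟨s(u, v), he, Sym2.mem_mk_right u v⟩, hadj, ?_⟩
      rintro w - ⟨f, hf, hwf⟩ hadjw
      by_cases hfe : s(u, v) = f
      · subst hfe
        rcases Sym2.mem_iff.1 hwf with rfl | rfl
        · exact absurd rfl hadjw.ne
        · rfl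
      · exact absurd hadjw (h2 _ he f hf hfe u hue w hwf).2
  · rintro ⟨β, h1, h2⟩
    refine ⟨{e | ∃ u v, u ∈ β ∧ v ∈ β ∧ G.Adj u v ∧ e = s(u, v)}, ?_, ?_, ?_⟩
    · rintro e ⟨u, v, -, -, hadj, rfl⟩
      exact hadj
    · have key : ∀ e, (∃ u v, u ∈ β ∧ v ∈ β ∧ G.Adj u v ∧ e = s(u, v)) → ∀ u ∈ e,
          ∃ v, u ∈ β ∧ v ∈ β ∧ G.Adj u v ∧ e = s(u, v) := by
        rintro e ⟨a, b, ha, hb, hab, rfl⟩ u hu
        rcases Sym2.mem_iff.1 hu with rfl | rfl
        · exact ⟨b, ha, hb, hab, rfl⟩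
        · exact ⟨a, hb, ha, hab.symm, Sym2.eq_swap⟩
      intro e he f hf hne u hu v hv
      obtain ⟨u', hu1, hu2, hu3, rfl⟩ := key e he u hu
      obtain ⟨v', hv1, hv2, hv3, rfl⟩ := key f hf v hv
      obtain ⟨w, -, -, -, huni⟩ := h2 u trivial hu1
      obtain ⟨w', -, -, -, huni'⟩ := h2 v trivial hv1
      constructor
      · rintro rfl
        have h3 := huni u' trivial hu2 hu3
        have h4 := huni v' trivial hv2 hv3
        exact hne (by rw [h3, h4])
      · intro hadj
        have h3 : v = u' := (huni v trivial hv1 hadj).trans (huni u' trivial hu2 hu3).symm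
        have h4 : u = v' := (huni' u trivial hu1 hadj.symm).trans (huni' v' trivial hv2 hv3).symm
        exact hne (by rw [← h3, ← h4]; exact Sym2.eq_swap)
    · intro e
      induction e with
      | _ u v =>
        intro hadj
        rcases h1 u trivial v trivial hadj with h | h
        · obtain ⟨w, -, hw, huw, -⟩ := h2 u trivial h
          exact ⟨s(u, w), ⟨u, w, h, hw, huw, rfl⟩, u, Sym2.mem_mk_left u v, Sym2.mem_mk_left u w⟩
        · obtain ⟨w, -, hw, huw, -⟩ := h2 v trivial h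
          exact ⟨s(v, w), ⟨v, w, h, hw, huw, rfl⟩, v, Sym2.mem_mk_right u v, Sym2.mem_mk_left v w⟩

theorem ng_adj_iff {x : Inp} {u v : ℕ} : (ng x).Adj u v ↔
    ∃ (hu : u < x.1) (hv : v < x.1), (graphOf x.1 x.2).Adj ⟨u, hu⟩ ⟨v, hv⟩ := by
  rw [ng_adj, adjB_iff]
  unfold graphOf
  constructor
  · rintro ⟨hu, hv, hne, h⟩
    exact ⟨hu, hv, by
      rw [SimpleGraph.fromRel_adj]
      exact ⟨fun h => hne (Fin.mk.inj h), h⟩⟩
  · rintro ⟨hu, hv, h⟩
    rw [SimpleGraph.fromRel_adj] at h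
    exact ⟨hu, hv, fun he => h.1 (Fin.ext he), h.2⟩

theorem col_iff {x : Inp} : (∃ β, Col (ng x) {u | u < x.1} β) ↔
    ∃ β, Col (graphOf x.1 x.2) Set.univ β := by
  constructor
  · rintro ⟨β, h1, h2⟩
    refine ⟨{v | (v : ℕ) ∈ β}, ?_, ?_⟩
    · intro u _ v _ hadj
      exact h1 u u.2 v v.2 (ng_adj_iff.2 ⟨u.2, v.2, hadj⟩)
    · intro u _ hu
      obtain ⟨v, hv, hvb, hadj, huni⟩ := h2 u u.2 hu
      obtain ⟨_, _, hadj'⟩ := ng_adj_iff.1 hadj
      refine ⟨⟨v, hv⟩, trivial, hvb, hadj', fun w _ hw hadjw => Fin.ext ?_⟩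
      exact huni w w.2 hw (ng_adj_iff.2 ⟨u.2, w.2, hadjw⟩)
  · rintro ⟨β, h1, h2⟩
    refine ⟨{u | ∃ h : u < x.1, (⟨u, h⟩ : Fin x.1) ∈ β}, ?_, ?_⟩
    · intro u hu v hv hadj
      obtain ⟨hu', hv', hadj'⟩ := ng_adj_iff.1 hadj
      rcases h1 _ trivial _ trivial hadj' with h | h
      · exact Or.inl ⟨hu', h⟩
      · exact Or.inr ⟨hv', h⟩
    · rintro u hu ⟨hu', hub⟩
      obtain ⟨v, -, hvb, hadj, huni⟩ := h2 _ trivial hub
      refine ⟨v, v.2, ⟨v.2, hvb⟩, ng_adj_iff.2 ⟨hu', v.2, hadj⟩, ?_⟩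
      rintro w hw ⟨hw', hwb⟩ hadjw
      obtain ⟨_, _, hadj'⟩ := ng_adj_iff.1 hadjw
      exact congrArg Fin.val (huni ⟨w, hw'⟩ trivial hwb hadj')

theorem no_indPath {x : Inp} {k : ℕ} (h : IsEmpty (SimpleGraph.pathGraph (k + 1) ↪g graphOf x.1 x.2))
    (u : ℕ → ℕ) (hu : IndPath (ng x) k u) : ¬ ∀ i ≤ k, u i < x.1 := by
  intro hn
  have h1 : IndPath (graphOf x.1 x.2) k (fun i => ⟨u (min i k), hn _ (min_le_right i k)⟩) := by
    intro i j hij hj
    obtain ⟨h2, h3⟩ := hu i j hij hj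
    have e1 : min i k = i := by omega
    have e2 : min j k = j := by omega
    refine ⟨fun he => h2 ?_, ?_⟩
    · have := Fin.mk.inj he
      rwa [e1, e2] at this
    · rw [← h3, ng_adj_iff]
      constructor
      · intro hadj
        refine ⟨hn i (by omega), hn j hj, ?_⟩
        simpa only [e1, e2] using hadj
      · rintro ⟨_, _, hadj⟩
        simpa only [e1, e2] using hadj
  obtain ⟨f⟩ := h1.embed (k := k + 1) le_rfl
  exact h.false f

/-- The algorithm is correct on graphs without induced path on `k` vertices. -/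
theorem algo_correct (k : ℕ) : ∃ N : ℕ, ∀ x : Inp,
    IsEmpty (SimpleGraph.pathGraph k ↪g graphOf x.1 x.2) →
    (algo N x = true ↔ ∃ M, IsDIM (graphOf x.1 x.2) M) := by
  cases k with
  | zero =>
    refine ⟨0, fun x hx => ?_⟩
    exact (hx.false ⟨⟨fun i => i.elim0, fun i => i.elim0⟩, fun {i} => i.elim0⟩).elim
  | succ k =>
    obtain ⟨N, hN⟩ := algo_complete k
    refine ⟨N, fun x hx => ?_⟩
    rw [exists_isDIM_iff, ← col_iff]
    exact ⟨fun h => algo_sound h, fun h => hN x (no_indPath hx) h⟩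

end Pool.Agent.Work.MP_c4d05f_lc
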