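import Pool.Agent.Work.MP_c4d05f_lc.Lfp

/-!
The algorithm for dominating induced matchings.
-/

set_option autoImplicit false

namespace Pool.Agent.Work.MP_c4d05f_lc

open Pool.Agent.Work.PolyTime

/-- Inputs: number of vertices and list of edges. -/
abbrev Inp : Type := ℕ × List (ℕ × ℕ)

/-- Adjacency. -/
def adjB (x : Inp) (u v : ℕ) : Bool :=
  decide (u < x.1) && (decide (v < x.1) && (!(decide (u = v)) && (memB (u, v) x.2 || memB (v, u) x.2)))

/-- The condition under which the neighbour `w` of the black vertex `u` is white. -/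
def whiteB (x : Inp) (A : List ℕ) (S : List (ℕ × Bool)) (w u : ℕ) : Bool :=
  (A.any fun z => memB (z, true) S && (!(decide (z = u)) && (!(decide (z = w)) &&
    (adjB x z w || adjB x z u)))) ||
  A.any fun c => A.any fun d => adjB x w c && (adjB x c d && (adjB x d u &&
    (!(decide (u = c)) && !(decide (w = d)))))

/-- The rules. -/
def ruleB (x : Inp) (A : List ℕ) (I S : List (ℕ × Bool)) (f : ℕ × Bool) : Bool :=
  memB f I || bif f.2 then A.any fun u => memB (u, false) S && adjB x u f.1
    else A.any fun u => memB (u, true) S && (adjB x u f.1 && whiteB x A S f.1 u)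

/-- All possible facts. -/
def factU (A : List ℕ) : List (ℕ × Bool) := A.flatMap fun w => [(w, true), (w, false)]

/-- The derived facts. -/
def facts (x : Inp) (A : List ℕ) (I : List (ℕ × Bool)) : List (ℕ × Bool) :=
  lfp (factU A) (ruleB x A I)

/-- The vertices reached from `v` inside `A`. -/
def reachL (x : Inp) (A : List ℕ) (v : ℕ) : List ℕ :=
  lfp A fun L b => decide (b = v) || L.any fun a => adjB x a b

/-- The facts are consistent. -/
def consB (A : List ℕ) (S : List (ℕ × Bool)) : Bool :=
  A.all fun w => !(memB (w, true) S && memB (w, false) S)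

/-- Flagged vertices. -/
def flagB (x : Inp) (A : List ℕ) (S : List (ℕ × Bool)) (w : ℕ) : Bool :=
  memB (w, true) S && !(A.any fun u => adjB x w u && memB (u, true) S)

/-- The undecided and the flagged vertices. -/
def aliveL (x : Inp) (A : List ℕ) (S : List (ℕ × Bool)) : List ℕ :=
  A.filter fun w => (!(memB (w, true) S) && !(memB (w, false) S)) || flagB x A S w

/-- The initial facts for the choice `y` at `v`: if `y = v` then `v` is white, otherwise `v` and
`y` are black. -/
def initL (R : List ℕ) (v y : ℕ) : List (ℕ × Bool) :=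
  (bif decide (y = v) then [(v, false)] else [(v, true), (y, true)]) ++ R.map fun w => (w, true)

/-- The new facts. -/
def newS (x : Inp) (q : List ℕ × List ℕ × ℕ) (y : ℕ) : List (ℕ × Bool) :=
  facts x q.1 (initL q.2.1 q.2.2 y)

/-- The component of `w` after the choice `y`. -/
def newK (x : Inp) (q : List ℕ × List ℕ × ℕ) (y w : ℕ) : List ℕ :=
  reachL x (aliveL x q.1 (newS x q y)) w

/-- `w` is a legal next vertex. -/
def validB (x : Inp) (q : List ℕ × List ℕ × ℕ) (y w : ℕ) : Bool :=
  flagB x q.1 (newS x q y) w &&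
    (reachL x (q.1.filter fun u => !(memB u (newK x q y w))) q.2.2).any fun u => adjB x u w

/-- The next instance. -/
def nextQ (x : Inp) (q : List ℕ × List ℕ × ℕ) (y w : ℕ) : List ℕ × List ℕ × ℕ :=
  (newK x q y w, (newK x q y w).filter (flagB x q.1 (newS x q y)), w)

/-- The legal choices at `v`. -/
def choices (x : Inp) (q : List ℕ × List ℕ × ℕ) : List ℕ :=
  q.1.filter fun y => decide (y = q.2.2) || adjB x q.2.2 y

/-- The recursive algorithm, cut at depth `d`. An instance consists of a list of vertices, a list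
of those that are required to be black, and the vertex to be decided next. -/
def solve (x : Inp) : ℕ → List ℕ × List ℕ × ℕ → Bool
  | 0, _ => false
  | d + 1, q => (choices x q).any fun y => consB q.1 (newS x q y) &&
      q.1.all fun w => !(validB x q y w) || solve x d (nextQ x q y w)

/-- The algorithm. -/
def algo (d : ℕ) (x : Inp) : Bool :=
  (List.range x.1).all fun v => solve x d (reachL x (List.range x.1) v, [], v)

/-! ### Running time -/

section

variable {α : Type} [Code α]

@[fun_prop]
theorem ptime_adjB {x : α → Inp} {u v : α → ℕ} (hx : PTime x) (hu : PTime u) (hv : PTime v) :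
    PTime (fun a => adjB (x a) (u a) (v a)) := by
  unfold adjB
  fun_prop

@[fun_prop]
theorem ptime_whiteB {x : α → Inp} {A : α → List ℕ} {S : α → List (ℕ × Bool)} {w u : α → ℕ}
    (hx : PTime x) (hA : PTime A) (hS : PTime S) (hw : PTime w) (hu : PTime u) :
    PTime (fun a => whiteB (x a) (A a) (S a) (w a) (u a)) := by
  unfold whiteB
  refine PTime.or (PTime.any hA ?_) (PTime.any hA (PTime.any (l := fun y : α × ℕ => A y.1)
    (hA.comp PTime.fst) ?_))
  · fun_prop
  · fun_prop

@[fun_prop]
theorem ptime_ruleB {x : α → Inp} {A : α → List ℕ} {I S : α → List (ℕ × Bool)}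
    {f : α → ℕ × Bool} (hx : PTime x) (hA : PTime A) (hI : PTime I) (hS : PTime S)
    (hf : PTime f) : PTime (fun a => ruleB (x a) (A a) (I a) (S a) (f a)) := by
  unfold ruleB
  refine PTime.or (by fun_prop) (PTime.cond (by fun_prop) (PTime.any hA ?_) (PTime.any hA ?_))
  · fun_prop
  · fun_prop

@[fun_prop]
theorem ptime_factU {A : α → List ℕ} (hA : PTime A) : PTime (fun a => factU (A a)) := by
  unfold factU
  exact PTime.flatMap hA (by fun_prop)

@[fun_prop]
theorem ptime_facts {x : α → Inp} {A : α → List ℕ} {I : α → List (ℕ × Bool)}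
    (hx : PTime x) (hA : PTime A) (hI : PTime I) :
    PTime (fun a => facts (x a) (A a) (I a)) := by
  unfold facts
  exact PTime.lfp (by fun_prop) (by fun_prop)

@[fun_prop]
theorem ptime_reachL {x : α → Inp} {A : α → List ℕ} {v : α → ℕ}
    (hx : PTime x) (hA : PTime A) (hv : PTime v) :
    PTime (fun a => reachL (x a) (A a) (v a)) := by
  unfold reachL
  refine PTime.lfp hA (PTime.or (by fun_prop) (PTime.any (by fun_prop) ?_))
  fun_prop

@[fun_prop]
theorem ptime_consB {A : α → List ℕ} {S : α → List (ℕ × Bool)} (hA : PTime A) (hS : PTime S) :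
    PTime (fun a => consB (A a) (S a)) := by
  unfold consB
  exact PTime.all hA (by fun_prop)

@[fun_prop]
theorem ptime_flagB {x : α → Inp} {A : α → List ℕ} {S : α → List (ℕ × Bool)} {w : α → ℕ}
    (hx : PTime x) (hA : PTime A) (hS : PTime S) (hw : PTime w) :
    PTime (fun a => flagB (x a) (A a) (S a) (w a)) := by
  unfold flagB
  refine PTime.and (by fun_prop) (PTime.not (PTime.any hA ?_))
  fun_prop

@[fun_prop]
theorem ptime_aliveL {x : α → Inp} {A : α → List ℕ} {S : α → List (ℕ × Bool)}
    (hx : PTime x) (hA : PTime A) (hS : PTime S) :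
    PTime (fun a => aliveL (x a) (A a) (S a)) := by
  unfold aliveL
  exact PTime.filter hA (by fun_prop)

@[fun_prop]
theorem ptime_initL {R : α → List ℕ} {v y : α → ℕ} (hR : PTime R) (hv : PTime v) (hy : PTime y) :
    PTime (fun a => initL (R a) (v a) (y a)) := by
  unfold initL
  refine PTime.append (PTime.cond (by fun_prop) (by fun_prop) (by fun_prop)) (PTime.map hR ?_)
  fun_prop

@[fun_prop]
theorem ptime_newS {x : α → Inp} {q : α → List ℕ × List ℕ × ℕ} {y : α → ℕ} (hx : PTime x)
    (hq : PTime q) (hy : PTime y) : PTime (fun a => newS (x a) (q a) (y a)) := by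
  unfold newS
  fun_prop

@[fun_prop]
theorem ptime_newK {x : α → Inp} {q : α → List ℕ × List ℕ × ℕ} {y w : α → ℕ} (hx : PTime x)
    (hq : PTime q) (hy : PTime y) (hw : PTime w) :
    PTime (fun a => newK (x a) (q a) (y a) (w a)) := by
  unfold newK
  fun_prop

@[fun_prop]
theorem ptime_validB {x : α → Inp} {q : α → List ℕ × List ℕ × ℕ} {y w : α → ℕ} (hx : PTime x)
    (hq : PTime q) (hy : PTime y) (hw : PTime w) :
    PTime (fun a => validB (x a) (q a) (y a) (w a)) := by
  unfold validB
  refine PTime.and (by fun_prop) (PTime.any (ptime_reachL hx (PTime.filter (by fun_prop) ?_)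
    (by fun_prop)) ?_)
  · fun_prop
  · fun_prop

@[fun_prop]
theorem ptime_nextQ {x : α → Inp} {q : α → List ℕ × List ℕ × ℕ} {y w : α → ℕ} (hx : PTime x)
    (hq : PTime q) (hy : PTime y) (hw : PTime w) :
    PTime (fun a => nextQ (x a) (q a) (y a) (w a)) := by
  unfold nextQ
  refine PTime.prodMk (by fun_prop) (PTime.prodMk (PTime.filter (by fun_prop) ?_) hw)
  fun_prop

@[fun_prop]
theorem ptime_choices {x : α → Inp} {q : α → List ℕ × List ℕ × ℕ} (hx : PTime x)
    (hq : PTime q) : PTime (fun a => choices (x a) (q a)) := by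
  unfold choices
  exact PTime.filter (by fun_prop) (by fun_prop)

end

theorem ptime_solve (d : ℕ) : PTime (fun z : Inp × (List ℕ × List ℕ × ℕ) => solve z.1 d z.2) := by
  induction d with
  | zero => exact PTime.const _
  | succ d ih =>
    have h : PTime (fun z : Inp × (List ℕ × List ℕ × ℕ) => (choices z.1 z.2).any fun y =>
        consB z.2.1 (newS z.1 z.2 y) &&
          z.2.1.all fun w => !(validB z.1 z.2 y w) || solve z.1 d (nextQ z.1 z.2 y w)) := by
      refine PTime.any (by fun_prop) (PTime.and (by fun_prop) (PTime.all (by fun_prop)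
        (PTime.or (by fun_prop) ?_)))
      exact ih.comp (f := fun y : (((Inp × (List ℕ × List ℕ × ℕ)) × ℕ) × ℕ) =>
        (y.1.1.1, nextQ y.1.1.1 y.1.1.2 y.1.2 y.2)) (by fun_prop)
    exact h

theorem ptime_algo (d : ℕ) : PTime (fun x : Inp => algo d x) := by
  unfold algo
  refine PTime.all (by fun_prop) ?_
  exact (ptime_solve d).comp (f := fun y : Inp × ℕ =>
    (y.1, (reachL y.1 (List.range y.1.1) y.2, [], y.2))) (by fun_prop)

end Pool.Agent.Work.MP_c4d05f_lc
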