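import Pool.Agent.Work.MP_c4d05f_lc.Defs

/-!
Propagation of colours, restriction of solutions to the components of the undecided part, and
gluing of solutions.
-/

set_option autoImplicit false

namespace Pool.Agent.Work.MP_c4d05f_lc

variable {V : Type*} {G : SimpleGraph V} {A : Set V} {I : V → Bool → Prop}

theorem Fact.mem {w : V} {c : Bool} (h : Fact G A I w c) : w ∈ A := by
  cases h <;> assumption

/-- All facts hold in each solution that agrees with the initial facts. -/
theorem Fact.sound {β : Set V} (hβ : Col G A β) (hI : ∀ w ∈ A, (I w true → w ∈ β) ∧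
    (I w false → w ∉ β)) {w : V} {c : Bool} (h : Fact G A I w c) : w ∈ β ↔ c = true := by
  obtain ⟨h1, h2⟩ := hβ
  induction h with
  | @init w c hw hc =>
    cases c with
    | true => exact iff_of_true ((hI w hw).1 hc) rfl
    | false => exact iff_of_false ((hI w hw).2 hc) (by simp)
  | @black u w hw hu hadj ih =>
    refine iff_of_true ?_ rfl
    rcases h1 u hu.mem w hw hadj with h | h
    · exact absurd (ih.1 h) (by simp)
    · exact h
  | @white2 u z w hw hu hz hadj hzu hzw hor ihu ihz =>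
    refine iff_of_false (fun hwb => ?_) (by simp)
    have hub : u ∈ β := ihu.2 rfl
    have hzb : z ∈ β := ihz.2 rfl
    rcases hor with h | h
    · obtain ⟨v, -, -, -, huni⟩ := h2 w hw hwb
      exact hzu ((huni z hz.mem hzb h.symm).trans (huni u hu.mem hub hadj.symm).symm)
    · obtain ⟨v, -, -, -, huni⟩ := h2 u hu.mem hub
      exact hzw ((huni z hz.mem hzb h.symm).trans (huni w hw hwb hadj).symm)
  | @white4 u w c d hw hu hadj hc hd hwc hcd hdu huc hwd ihu =>
    refine iff_of_false (fun hwb => ?_) (by simp)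
    have hub : u ∈ β := ihu.2 rfl
    obtain ⟨v, -, -, -, huni⟩ := h2 w hw hwb
    obtain ⟨v', -, -, -, huni'⟩ := h2 u hu.mem hub
    rcases h1 c hc d hd hcd with h | h
    · exact huc ((huni u hu.mem hub hadj.symm).trans (huni c hc h hwc).symm)
    · exact hwd ((huni' w hw hwb hadj).trans (huni' d hd h hdu.symm).symm)

/-- The component of `w` in the graph induced by `A`. -/
def Comp (G : SimpleGraph V) (A : Set V) (w : V) : Set V := {u | Reach G A w u}

theorem Reach.mem {a b : V} (h : Reach G A a b) (ha : a ∈ A) : b ∈ A := by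
  induction h with
  | refl => exact ha
  | tail _ h2 _ => exact h2.2

theorem Reach.symm {a b : V} (ha : a ∈ A) (h : Reach G A a b) : Reach G A b a := by
  induction h with
  | refl => exact Relation.ReflTransGen.refl
  | @tail b c h1 h2 ih =>
    have hb : b ∈ A := Reach.mem h1 ha
    exact (Relation.ReflTransGen.single ⟨h2.1.symm, hb⟩ : Reach G A c b).trans ih

theorem comp_subset {w : V} (hw : w ∈ A) : Comp G A w ⊆ A := fun _ h => Reach.mem h hw

theorem self_mem_comp (w : V) : w ∈ Comp G A w := Relation.ReflTransGen.refl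

theorem comp_eq {w u : V} (hw : w ∈ A) (hu : u ∈ Comp G A w) : Comp G A u = Comp G A w := by
  ext z
  exact ⟨fun h => hu.trans h, fun h => (Reach.symm hw hu).trans h⟩

theorem adj_mem_comp {w u z : V} (hu : u ∈ Comp G A w) (hz : z ∈ A) (h : G.Adj u z) :
    z ∈ Comp G A w := hu.tail ⟨h, hz⟩

/-- Gluing. -/
theorem glue (hcons : ∀ w, ¬ (Fact G A I w true ∧ Fact G A I w false))
    (hK : ∀ w₀ ∈ AliveSet G A (Fact G A I), ∃ β, Col G (Comp G (AliveSet G A (Fact G A I)) w₀) β ∧
      ∀ w ∈ Comp G (AliveSet G A (Fact G A I)) w₀, Fact G A I w true → w ∈ β) :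
    ∃ β, Col G A β ∧ ∀ w ∈ A, Fact G A I w true → w ∈ β := by
  classical
  set S := Fact G A I with hS
  set A' := AliveSet G A S with hA'
  let P : Set V → Set V → Prop := fun K β => Col G K β ∧ ∀ w ∈ K, S w true → w ∈ β
  have hb : ∃ b : Set V → Set V, ∀ w₀ ∈ A', P (Comp G A' w₀) (b (Comp G A' w₀)) := by
    refine ⟨fun K => if h : ∃ β, P K β then h.choose else ∅, fun w₀ hw₀ => ?_⟩
    have h := hK w₀ hw₀
    have h' : ∃ β, P (Comp G A' w₀) β := h
    simp only [dif_pos h']
    exact h'.choose_spec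
  obtain ⟨b, hb⟩ := hb
  have hAA : A' ⊆ A := fun w hw => hw.1
  refine ⟨{w | S w true ∨ (w ∈ A' ∧ w ∈ b (Comp G A' w))}, ⟨?_, ?_⟩, fun w _ h => Or.inl h⟩
  · intro u hu v hv hadj
    by_contra hcon
    simp only [Set.mem_ofPred_eq, not_or, not_and] at hcon
    obtain ⟨⟨hu1, hu2⟩, hv1, hv2⟩ := hcon
    have hu0 : ¬ S u false := fun h => hv1 (Fact.black hv h hadj)
    have hv0 : ¬ S v false := fun h => hu1 (Fact.black hu h hadj.symm)
    have hu' : u ∈ A' := ⟨hu, Or.inl ⟨hu1, hu0⟩⟩
    have hv' : v ∈ A' := ⟨hv, Or.inl ⟨hv1, hv0⟩⟩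
    have hvK : v ∈ Comp G A' u := adj_mem_comp (self_mem_comp u) hv' hadj
    have h1 := (hb u hu').1.1 u (self_mem_comp u) v hvK hadj
    have h2 := hv2 hv'
    rw [comp_eq hu' hvK] at h2
    exact h1.elim (hu2 hu') h2
  · intro u hu hub
    -- uniqueness and existence for alive `u`
    have key : u ∈ A' → u ∈ b (Comp G A' u) →
        (∀ w ∈ A, w ∉ A' → S w true → G.Adj u w → False) →
        ∃ v ∈ A, v ∈ {w | S w true ∨ (w ∈ A' ∧ w ∈ b (Comp G A' w))} ∧ G.Adj u v ∧
          ∀ w ∈ A, w ∈ {w | S w true ∨ (w ∈ A' ∧ w ∈ b (Comp G A' w))} → G.Adj u w → w = v := by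
      intro hu' hub' hno
      obtain ⟨hc, hfl⟩ := hb u hu'
      obtain ⟨v, hvK, hvb, hadj, huni⟩ := hc.2 u (self_mem_comp u) hub'
      have hv' : v ∈ A' := comp_subset hu' hvK
      refine ⟨v, hAA hv', Or.inr ⟨hv', by rw [comp_eq hu' hvK]; exact hvb⟩, hadj, ?_⟩
      intro w hw hwβ hadjw
      by_cases hw' : w ∈ A'
      · have hwK : w ∈ Comp G A' u := adj_mem_comp (self_mem_comp u) hw' hadjw
        refine huni w hwK ?_ hadjw
        rcases hwβ with h | ⟨-, h⟩
        · exact hfl w hwK h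
        · rwa [comp_eq hu' hwK] at h
      · rcases hwβ with h | ⟨h, -⟩
        · exact (hno w hw hw' h hadjw).elim
        · exact absurd h hw'
    by_cases hut : S u true
    · by_cases hz : ∃ z, G.Adj u z ∧ S z true
      · obtain ⟨z, hadj, hzt⟩ := hz
        refine ⟨z, hzt.mem, Or.inl hzt, hadj, ?_⟩
        intro w hw hwβ hadjw
        by_contra hne
        have hwf : S w false := Fact.white2 hw hut hzt hadjw hadj.ne' (Ne.symm hne)
          (Or.inr hadj.symm)
        rcases hwβ with h | ⟨⟨-, h⟩, -⟩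
        · exact hcons w ⟨h, hwf⟩
        · rcases h with h | h
          · exact h.2 hwf
          · exact hcons w ⟨h.1, hwf⟩
      · push Not at hz
        have hfl : Flag G S u := ⟨hut, hz⟩
        have hu' : u ∈ A' := ⟨hu, Or.inr hfl⟩
        exact key hu' ((hb u hu').2 u (self_mem_comp u) hut)
          (fun w _ _ hwt hadj => hz w hadj hwt)
    · rcases hub with h | ⟨hu', hub'⟩
      · exact absurd h hut
      · refine key hu' hub' ?_
        intro w hw hw' hwt hadj
        have hnf : ¬ Flag G S w := fun h => hw' ⟨hw, Or.inr h⟩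
        have : ∃ z, G.Adj w z ∧ S z true := by
          by_contra hcon
          push Not at hcon
          exact hnf ⟨hwt, hcon⟩
        obtain ⟨z, hwz, hzt⟩ := this
        have huf : S u false := Fact.white2 hu hwt hzt hadj.symm hwz.ne'
          (fun h => hut (h ▸ hzt)) (Or.inr hwz.symm)
        rcases hu'.2 with h | h
        · exact h.2 huf
        · exact hut h.1

/-- A solution restricts to the components of the alive part. -/
theorem Col.restrict {β : Set V} (hβ : Col G A β)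
    (hS : ∀ w c, Fact G A I w c → (w ∈ β ↔ c = true)) {w₀ : V}
    (hw₀ : w₀ ∈ AliveSet G A (Fact G A I)) :
    Col G (Comp G (AliveSet G A (Fact G A I)) w₀) β := by
  set S := Fact G A I with hSdef
  set A' := AliveSet G A S with hA'
  have hsub : Comp G A' w₀ ⊆ A' := comp_subset hw₀
  have hAA : A' ⊆ A := fun w hw => hw.1
  refine ⟨fun u hu v hv hadj => hβ.1 u (hAA (hsub hu)) v (hAA (hsub hv)) hadj, ?_⟩
  intro u hu hub
  obtain ⟨v, hv, hvb, hadj, huni⟩ := hβ.2 u (hAA (hsub hu)) hub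
  refine ⟨v, ?_, hvb, hadj, fun w hw hwb h => huni w (hAA (hsub hw)) hwb h⟩
  refine adj_mem_comp hu ⟨hv, ?_⟩ hadj
  have hvf : ¬ S v false := fun h => by
    have := (hS v false h).1 hvb
    simp at this
  by_cases hvt : S v true
  · right
    refine ⟨hvt, fun z hvz hzt => ?_⟩
    have hzb : z ∈ β := (hS z true hzt).2 rfl
    obtain ⟨v', -, -, -, huni'⟩ := hβ.2 v hv hvb
    have hzu : z = u := (huni' z hzt.mem hzb hvz).trans
      (huni' u (hAA (hsub hu)) hub hadj.symm).symm
    subst hzu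
    rcases (hsub hu).2 with h | h
    · exact h.1 hzt
    · exact h.2 v hadj hvt
  · exact Or.inl ⟨hvt, hvf⟩

/-- Each component of the alive part contains a flagged vertex that can be reached from `v`
outside the component. -/
theorem exists_entry {v : V} (hv : v ∈ A) (hv' : v ∉ AliveSet G A (Fact G A I))
    (hcon : ∀ w ∈ A, Reach G A v w) {w₀ : V} (hw₀ : w₀ ∈ AliveSet G A (Fact G A I)) :
    ∃ w, w ∈ Comp G (AliveSet G A (Fact G A I)) w₀ ∧ Flag G (Fact G A I) w ∧
      ∃ u, Reach G (A \ Comp G (AliveSet G A (Fact G A I)) w₀) v u ∧ G.Adj u w := by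
  set S := Fact G A I with hSdef
  set A' := AliveSet G A S with hA'
  set K := Comp G A' w₀ with hKdef
  have hsub : K ⊆ A' := comp_subset hw₀
  have hAA : A' ⊆ A := fun w hw => hw.1
  have hvK : v ∉ K := fun h => hv' (hsub h)
  have key : ∀ w, Reach G A v w → Reach G (A \ K) v w ∨
      ∃ u w', Reach G (A \ K) v u ∧ G.Adj u w' ∧ w' ∈ K := by
    intro w hw
    induction hw with
    | refl => exact Or.inl Relation.ReflTransGen.refl
    | @tail a b _ hab ih =>
      rcases ih with h | h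
      · by_cases hb : b ∈ K
        · exact Or.inr ⟨a, b, h, hab.1, hb⟩
        · exact Or.inl (h.tail ⟨hab.1, hab.2, hb⟩)
      · exact Or.inr h
  have hvA : v ∈ A \ K := ⟨hv, hvK⟩
  rcases key w₀ (hcon w₀ (hAA hw₀)) with h | ⟨u, w', hu, hadj, hw'⟩
  · exact absurd (self_mem_comp w₀) (Reach.mem h hvA).2
  · refine ⟨w', hw', ?_, u, hu, hadj⟩
    have huA := Reach.mem hu hvA
    have hu' : u ∉ A' := fun h => huA.2 (adj_mem_comp hw' h hadj.symm)
    have hw'A := hsub hw'
    rcases hw'A.2 with hund | hfl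
    · exfalso
      by_cases huf : S u false
      · exact hund.1 (Fact.black hw'A.1 huf hadj)
      · by_cases hut : S u true
        · have hnf : ¬ Flag G S u := fun h => hu' ⟨huA.1, Or.inr h⟩
          have : ∃ z, G.Adj u z ∧ S z true := by
            by_contra hcon
            push Not at hcon
            exact hnf ⟨hut, hcon⟩
          obtain ⟨z, huz, hzt⟩ := this
          exact hund.2 (Fact.white2 hw'A.1 hut hzt hadj huz.ne' (fun h => hund.1 (h ▸ hzt))
            (Or.inr huz.symm))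
        · exact hu' ⟨huA.1, Or.inl ⟨hut, huf⟩⟩
    · exact hfl

/-- The white side of a biclique not contained in a component of the alive part does not meet that
component. -/
theorem biclique_side {β : Set V} (hS : ∀ w c, Fact G A I w c → (w ∈ β ↔ c = true)) {w₀ : V}
    (hw₀ : w₀ ∈ AliveSet G A (Fact G A I)) {L R : Set V} (hLA : L ⊆ A) (hRA : R ⊆ A)
    (hLR : ∀ l ∈ L, ∀ r ∈ R, G.Adj l r) (hL2 : ∃ l ∈ L, ∃ l' ∈ L, l' ≠ l)
    (hR2 : ∃ r ∈ R, ∃ r' ∈ R, r' ≠ r) (hLβ : ∀ l ∈ L, l ∉ β) (hRβ : R ⊆ β) {z : V}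
    (hz : z ∈ L ∪ R) (hzK : z ∉ Comp G (AliveSet G A (Fact G A I)) w₀) :
    ∀ l ∈ L, l ∉ Comp G (AliveSet G A (Fact G A I)) w₀ := by
  set S := Fact G A I with hSdef
  set A' := AliveSet G A S with hA'
  set K := Comp G A' w₀ with hKdef
  intro l hl hlK
  have hL2' : ∀ l ∈ L, ∃ l' ∈ L, l' ≠ l := by
    intro l _
    obtain ⟨a, ha, b, hb, hab⟩ := hL2
    by_cases h : a = l
    · exact ⟨b, hb, h ▸ hab⟩
    · exact ⟨a, ha, h⟩
  have hR2' : ∀ r ∈ R, ∃ r' ∈ R, r' ≠ r := by
    intro l _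
    obtain ⟨a, ha, b, hb, hab⟩ := hR2
    by_cases h : a = l
    · exact ⟨b, hb, h ▸ hab⟩
    · exact ⟨a, ha, h⟩
  obtain ⟨r₀, hr₀, -⟩ := hR2
  have hsub : K ⊆ A' := comp_subset hw₀
  have hlt : ¬ S l true := fun h => hLβ l hl ((hS l true h).2 rfl)
  have hlf : ¬ S l false := by
    rcases (hsub hlK).2 with h | h
    · exact h.2
    · exact absurd h.1 hlt
  have hRt : ∀ r ∈ R, ¬ S r true := by
    intro r hr hrt
    obtain ⟨l', hl', hne⟩ := hL2' l hl
    obtain ⟨r', hr', hne'⟩ := hR2' r hr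
    exact hlf (Fact.white4 (hLA hl) hrt (hLR l hl r hr).symm (hRA hr') (hLA hl')
      (hLR l hl r' hr') (hLR l' hl' r' hr').symm (hLR l' hl' r hr) (Ne.symm hne') (Ne.symm hne))
  have hRf : ∀ r ∈ R, ¬ S r false := by
    intro r hr hrf
    have := (hS r false hrf).1 (hRβ hr)
    simp at this
  have hLf : ∀ l' ∈ L, ¬ S l' false := fun l' hl' hf =>
    hRt r₀ hr₀ (Fact.black (hRA hr₀) hf (hLR l' hl' r₀ hr₀))
  have hLt : ∀ l' ∈ L, ¬ S l' true := fun l' hl' h => hLβ l' hl' ((hS l' true h).2 rfl)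
  have hRK : ∀ r ∈ R, r ∈ K := fun r hr =>
    adj_mem_comp hlK ⟨hRA hr, Or.inl ⟨hRt r hr, hRf r hr⟩⟩ (hLR l hl r hr)
  have hLK : ∀ l' ∈ L, l' ∈ K := fun l' hl' =>
    adj_mem_comp (hRK r₀ hr₀) ⟨hLA hl', Or.inl ⟨hLt l' hl', hLf l' hl'⟩⟩ (hLR l' hl' r₀ hr₀).symm
  rcases hz with h | h
  · exact hzK (hLK z h)
  · exact hzK (hRK z h)

end Pool.Agent.Work.MP_c4d05f_lc
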