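import Pool.Agent.Work.MP_c4d05f_lc.Sound
import Pool.Agent.Work.MP_c4d05f_lc.SP

/-!
If there is a solution and the algorithm rejects then there is a long path whose vertices carry
no large biclique.
-/

set_option autoImplicit false

namespace Pool.Agent.Work.MP_c4d05f_lc

open Pool.Agent.Work.PolyTime

/-- Bicliques with a white and a black side on the vertices of `P` have white sides with at most
`k` vertices. -/
def Bic (G : SimpleGraph ℕ) (β : Set ℕ) (k : ℕ) (P : List ℕ) : Prop :=
  ∀ L R : Finset ℕ, (∀ l ∈ L, l ∈ P) → (∀ r ∈ R, r ∈ P) → (∀ l ∈ L, ∀ r ∈ R, G.Adj l r) →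
    2 ≤ L.card → 2 ≤ R.card → (∀ l ∈ L, l ∉ β) → (∀ r ∈ R, r ∈ β) → L.card ≤ k

theorem Reach.mono {V : Type*} {G : SimpleGraph V} {A B : Set V} (hAB : A ⊆ B) {a b : V}
    (h : Reach G A a b) : Reach G B a b := by
  induction h with
  | refl => exact Relation.ReflTransGen.refl
  | @tail b c h1 h2 ih => exact ih.tail ⟨h2.1, hAB h2.2⟩

theorem exists_pair {L : Finset ℕ} (h : 2 ≤ L.card) : ∃ l ∈ (L : Set ℕ), ∃ l' ∈ (L : Set ℕ), l' ≠ l := by
  obtain ⟨a, ha, b, hb, hab⟩ := Finset.one_lt_card.1 h
  exact ⟨a, ha, b, hb, hab.symm⟩

theorem solve_complete (x : Inp) (β : Set ℕ) (k : ℕ)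
    (hk : ∀ (m : ℕ) (u : ℕ → ℕ), IndPath (ng x) m u → (∀ i ≤ m, u i < x.1) → m < k) :
    ∀ (d : ℕ) (q : List ℕ × List ℕ × ℕ), q.2.2 ∈ q.1 → (∀ w ∈ q.1, w < x.1) →
      Col (ng x) (st q.1) β → (∀ w ∈ q.2.1, w ∈ β) → solve x d q = false →
      ∃ P : List ℕ, d ≤ P.length ∧ P.head? = some q.2.2 ∧ P.IsChain (ng x).Adj ∧ P.Nodup ∧
        (∀ u ∈ P, u ∈ q.1) ∧ Bic (ng x) β k P := by
  intro d
  induction d with
  | zero =>
    intro q hv hn _ _ _
    refine ⟨[q.2.2], Nat.zero_le _, rfl, List.isChain_singleton _, List.nodup_singleton _,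
      by simpa using hv, ?_⟩
    intro L R hL _ _ hL2
    exfalso
    obtain ⟨a, ha, b, hb, hab⟩ := Finset.one_lt_card.1 hL2
    have h1 := hL a ha
    have h2 := hL b hb
    simp only [List.mem_singleton] at h1 h2
    exact hab (h1.trans h2.symm)
  | succ d ih =>
    intro q hv hn hβ hR hsol
    -- the right choice
    obtain ⟨y, hy, hI⟩ : ∃ y ∈ choices x q, ∀ w ∈ st q.1,
        (lf (initL q.2.1 q.2.2 y) w true → w ∈ β) ∧
        (lf (initL q.2.1 q.2.2 y) w false → w ∉ β) := by
      by_cases hvb : q.2.2 ∈ β
      · obtain ⟨y, hyA, hyb, hadj, -⟩ := hβ.2 q.2.2 hv hvb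
        refine ⟨y, mem_choices.2 ⟨hyA, Or.inr hadj⟩, fun w hw => ⟨fun h => ?_, fun h => ?_⟩⟩
        · rcases initL_mem.1 h with ⟨-, -, h⟩ | ⟨-, h, -⟩ | ⟨h, -⟩
          · exact absurd h (by simp)
          · rcases h with h | h
            · exact h ▸ hvb
            · exact h ▸ hyb
          · exact hR w h
        · rcases initL_mem.1 h with ⟨h, -, -⟩ | ⟨-, -, h⟩ | ⟨-, h⟩
          · exact absurd h hadj.ne'
          · exact absurd h (by simp)
          · exact absurd h (by simp)
      · refine ⟨q.2.2, mem_choices.2 ⟨hv, Or.inl rfl⟩, fun w hw => ⟨fun h => ?_, fun h => ?_⟩⟩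
        · rcases initL_mem.1 h with ⟨-, -, h⟩ | ⟨h, -, -⟩ | ⟨h, -⟩
          · exact absurd h (by simp)
          · exact absurd rfl h
          · exact hR w h
        · rcases initL_mem.1 h with ⟨-, h, -⟩ | ⟨h, -, -⟩ | ⟨-, h⟩
          · exact h ▸ hvb
          · exact absurd rfl h
          · exact absurd h (by simp)
    have hS : ∀ w c, Fact (ng x) (st q.1) (lf (initL q.2.1 q.2.2 y)) w c →
        (w ∈ β ↔ c = true) := fun w c h => h.sound hβ hI
    have hcons : consB q.1 (newS x q y) = true := by
      refine consB_iff.2 (fun w hw => ?_)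
      have h1 := (hS w true hw.1).2 rfl
      have h2 := (hS w false hw.2).1 h1
      exact absurd h2 (by simp)
    have hva := not_alive hv hy hcons
    -- the universal player wins
    obtain ⟨w, hwA, hval, hfalse⟩ : ∃ w ∈ q.1, validB x q y w = true ∧
        solve x d (nextQ x q y w) = false := by
      by_contra hcon
      push Not at hcon
      have : solve x (d + 1) q = true := by
        simp only [solve, List.any_eq_true, Bool.and_eq_true, List.all_eq_true, Bool.or_eq_true,
          Bool.not_eq_true']
        refine ⟨y, hy, hcons, fun w hw => ?_⟩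
        by_cases h : validB x q y w = true
        · right
          have := hcon w hw h
          simpa using this
        · left; simpa using h
      rw [this] at hsol
      exact absurd hsol (by simp)
    have hfl : Flag (ng x) (Fact (ng x) (st q.1) (lf (initL q.2.1 q.2.2 y))) w := by
      unfold validB at hval
      rw [Bool.and_eq_true] at hval
      exact flagB_iff.1 hval.1
    have hw : w ∈ alv x q y := ⟨hwA, Or.inr hfl⟩
    obtain ⟨-, u, hreach, hadj⟩ := (validB_iff hv hva hw).1 hval
    have hK := st_newK hw
    have hKA : ∀ z ∈ newK x q y w, z ∈ q.1 := by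
      intro z hz
      have hz' : z ∈ st (newK x q y w) := hz
      rw [hK] at hz'
      exact (comp_subset hw hz').1
    obtain ⟨P', hlen, hhead, hchain, hnodup, hPsub, hbic⟩ := ih (nextQ x q y w)
      (by
        change w ∈ st (newK x q y w)
        rw [hK]; exact self_mem_comp w)
      (fun z hz => hn z (hKA z hz))
      (by
        change Col (ng x) (st (newK x q y w)) β
        rw [hK]; exact Col.restrict hβ hS hw)
      (fun z hz => (hS z true (flagB_iff.1 (List.mem_filter.1 hz).2).1).2 rfl) hfalse
    have hPK : ∀ z ∈ P', z ∈ Comp (ng x) (alv x q y) w := by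
      intro z hz
      have hz' : z ∈ st (newK x q y w) := hPsub z hz
      rwa [hK] at hz'
    set K := Comp (ng x) (alv x q y) w with hKdef
    have hvK : q.2.2 ∉ K := fun h => hva (comp_subset hw h)
    have hwK : w ∈ K := self_mem_comp w
    -- the connecting path
    have hreach' : Reach (ng x) (insert w (st q.1 \ K)) q.2.2 w := by
      have h1 : Reach (ng x) (insert w (st q.1 \ K)) q.2.2 u :=
        Reach.mono (fun a h => Or.inr h) hreach
      exact h1.tail ⟨hadj, Or.inl rfl⟩
    obtain ⟨m, σ, hσ, hσ0, hσm, hσC⟩ := exists_indPath (ng x) (insert w (st q.1 \ K))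
      (Or.inr ⟨hv, hvK⟩) hreach'
    have hm : m ≠ 0 := by
      rintro rfl
      rw [hσ0] at hσm
      exact hvK (hσm ▸ hwK)
    have hσK : ∀ i < m, σ i ∈ st q.1 \ K := by
      intro i hi
      rcases hσC i hi.le with h | h
      · exact absurd (h.trans hσm.symm) (hσ i m hi le_rfl).1
      · exact h
    have hσn : ∀ i ≤ m, σ i < x.1 := by
      intro i hi
      rcases hσC i hi with h | h
      · rw [h]; exact hn w hwA
      · exact hn _ h.1
    have hmk : m < k := hk m σ hσ hσn
    refine ⟨(List.range m).map σ ++ P', ?_, ?_, ?_, ?_, ?_, ?_⟩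
    · rw [List.length_append, List.length_map, List.length_range]; omega
    · obtain ⟨m, rfl⟩ := Nat.exists_eq_succ_of_ne_zero hm
      rw [List.range_succ_eq_map]
      simp [hσ0]
    · rw [List.isChain_append]
      refine ⟨?_, hchain, ?_⟩
      · rw [List.isChain_iff_getElem]
        intro i hi
        simp only [List.length_map, List.length_range] at hi
        simp only [List.getElem_map, List.getElem_range]
        exact (hσ i (i + 1) (by omega) (by omega)).2.2 rfl
      · intro a ha b hb
        rw [hhead] at hb
        simp only [Option.mem_def, Option.some.injEq] at hb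
        change w = b at hb
        subst hb
        obtain ⟨m, rfl⟩ := Nat.exists_eq_succ_of_ne_zero hm
        rw [List.range_succ, List.map_append, List.map_singleton, List.getLast?_concat] at ha
        simp only [Option.mem_def, Option.some.injEq] at ha
        subst ha
        have := (hσ m (m + 1) (by omega) le_rfl).2.2 rfl
        rw [← hσm]
        exact this
    · rw [List.nodup_append]
      refine ⟨?_, hnodup, ?_⟩
      · refine List.Nodup.map_on ?_ List.nodup_range
        intro i hi j hj hij
        simp only [List.mem_range] at hi hj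
        rcases lt_trichotomy i j with h | h | h
        · exact absurd hij (hσ i j h hj.le).1
        · exact h
        · exact absurd hij.symm (hσ j i h hi.le).1
      · intro a ha b hb hab
        simp only [List.mem_map, List.mem_range] at ha
        obtain ⟨i, hi, rfl⟩ := ha
        subst hab
        exact (hσK i hi).2 (hPK _ hb)
    · intro z hz
      rw [List.mem_append] at hz
      rcases hz with hz | hz
      · simp only [List.mem_map, List.mem_range] at hz
        obtain ⟨i, hi, rfl⟩ := hz
        exact (hσK i hi).1
      · exact hKA z (hPsub z hz)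
    · intro L R hL hR' hLR hL2 hR2 hLβ hRβ
      by_cases hall : (∀ l ∈ L, l ∈ P') ∧ ∀ r ∈ R, r ∈ P'
      · exact hbic L R hall.1 hall.2 hLR hL2 hR2 hLβ hRβ
      · have hmemA : ∀ z, z ∈ (List.range m).map σ ++ P' → z ∈ st q.1 := by
          intro z hz
          rw [List.mem_append] at hz
          rcases hz with hz | hz
          · simp only [List.mem_map, List.mem_range] at hz
            obtain ⟨i, hi, rfl⟩ := hz
            exact (hσK i hi).1
          · exact hKA z (hPsub z hz)
        have hout : ∀ z, z ∈ (List.range m).map σ ++ P' → z ∉ P' → z ∉ K := by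
          intro z hz hz'
          rw [List.mem_append] at hz
          rcases hz with hz | hz
          · simp only [List.mem_map, List.mem_range] at hz
            obtain ⟨i, hi, rfl⟩ := hz
            exact (hσK i hi).2
          · exact absurd hz hz'
        obtain ⟨z, hz, hzK⟩ : ∃ z, z ∈ (L : Set ℕ) ∪ (R : Set ℕ) ∧ z ∉ K := by
          rw [not_and_or] at hall
          push Not at hall
          rcases hall with ⟨z, hz, hz'⟩ | ⟨z, hz, hz'⟩
          · exact ⟨z, Or.inl hz, hout z (hL z hz) hz'⟩
          · exact ⟨z, Or.inr hz, hout z (hR' z hz) hz'⟩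
        have hside := biclique_side hS hw (L := (L : Set ℕ)) (R := (R : Set ℕ))
          (fun l hl => hmemA l (hL l hl)) (fun r hr => hmemA r (hR' r hr)) hLR
          (exists_pair hL2) (exists_pair hR2) hLβ hRβ hz hzK
        have hsub : L ⊆ (Finset.range m).image σ := by
          intro l hl
          have h1 := hL l hl
          rw [List.mem_append] at h1
          rcases h1 with h1 | h1
          · simp only [List.mem_map, List.mem_range] at h1
            obtain ⟨i, hi, rfl⟩ := h1
            exact Finset.mem_image.2 ⟨i, Finset.mem_range.2 hi, rfl⟩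
          · exact absurd (hPK l h1) (hside l hl)
        have h1 := Finset.card_le_card hsub
        have h2 := (Finset.card_image_le (s := Finset.range m) (f := σ))
        rw [Finset.card_range] at h2
        omega

end Pool.Agent.Work.MP_c4d05f_lc
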