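import Mathlib

/-!
Dominating induced matchings: definitions used in the proof that the problem is polynomial on
graphs without long induced paths.
-/

set_option autoImplicit false

namespace Pool.Agent.Work.MP_c4d05f_lc

/-- `u 0, …, u m` is an induced path of `G` (with `m + 1` different vertices). -/
def IndPath {V : Type*} (G : SimpleGraph V) (m : ℕ) (u : ℕ → V) : Prop :=
  ∀ i j, i < j → j ≤ m → u i ≠ u j ∧ (G.Adj (u i) (u j) ↔ j = i + 1)

/-- Steps of walks inside `A`. -/
def Step {V : Type*} (G : SimpleGraph V) (A : Set V) (a b : V) : Prop := G.Adj a b ∧ b ∈ A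

/-- There is a walk from `a` to `b` whose vertices other than `a` are in `A`. -/
def Reach {V : Type*} (G : SimpleGraph V) (A : Set V) (a b : V) : Prop :=
  Relation.ReflTransGen (Step G A) a b

/-- The restriction of the set `β` of black vertices to `A` is a solution on the subgraph induced
by `A`: no edge with two white ends, each black vertex has exactly one black neighbour. -/
def Col {V : Type*} (G : SimpleGraph V) (A β : Set V) : Prop :=
  (∀ u ∈ A, ∀ v ∈ A, G.Adj u v → u ∈ β ∨ v ∈ β) ∧
  ∀ u ∈ A, u ∈ β → ∃ v ∈ A, v ∈ β ∧ G.Adj u v ∧ ∀ w ∈ A, w ∈ β → G.Adj u w → w = v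

/-- Facts (`true` = black, `false` = white) that follow from the facts `I` by simple rules, inside
the set `A` of vertices. -/
inductive Fact {V : Type*} (G : SimpleGraph V) (A : Set V) (I : V → Bool → Prop) :
    V → Bool → Prop
  | init {w : V} {c : Bool} : w ∈ A → I w c → Fact G A I w c
  | black {u w : V} : w ∈ A → Fact G A I u false → G.Adj u w → Fact G A I w true
  | white2 {u z w : V} : w ∈ A → Fact G A I u true → Fact G A I z true → G.Adj u w → z ≠ u →
      z ≠ w → (G.Adj z w ∨ G.Adj z u) → Fact G A I w false
  | white4 {u w c d : V} : w ∈ A → Fact G A I u true → G.Adj u w → c ∈ A → d ∈ A → G.Adj w c →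
      G.Adj c d → G.Adj d u → u ≠ c → w ≠ d → Fact G A I w false

/-- Flagged: black, with no black neighbour so far. -/
def Flag {V : Type*} (G : SimpleGraph V) (S : V → Bool → Prop) (w : V) : Prop :=
  S w true ∧ ∀ u, G.Adj w u → ¬ S u true

/-- Vertices that are undecided or flagged. -/
def AliveSet {V : Type*} (G : SimpleGraph V) (A : Set V) (S : V → Bool → Prop) : Set V :=
  {w | w ∈ A ∧ ((¬ S w true ∧ ¬ S w false) ∨ Flag G S w)}

end Pool.Agent.Work.MP_c4d05f_lc
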