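import Pool.Agent.Work.PolyTime.More

/-!
Least fixed points of monotone rules on the elements of a list, in polynomial time.
-/

set_option autoImplicit false

namespace Pool.Agent.Work.MP_c4d05f_lc

open Pool.Agent.Work.PolyTime

/-- The elements of `U` derived by the rule `r` (from the elements derived before), iterated as
often as `U` is long. -/
def lfp {β : Type} (U : List β) (r : List β → β → Bool) : List β :=
  U.foldl (fun L _ => U.filter (r L)) []

theorem foldl_const {β γ : Type} (g : γ → γ) (l : List β) : ∀ s : γ,
    l.foldl (fun s _ => g s) s = g^[l.length] s := by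
  induction l with
  | nil => intro s; rfl
  | cons b l ih =>
    intro s
    rw [List.foldl_cons, ih, List.length_cons, Function.iterate_succ_apply]

theorem lfp_eq {β : Type} (U : List β) (r : List β → β → Bool) :
    lfp U r = (fun L => U.filter (r L))^[U.length] [] := foldl_const _ _ _

theorem lfp_fixed {β : Type} {U : List β} {r : List β → β → Bool}
    (hr : ∀ L L' : List β, (∀ b ∈ L, b ∈ L') → ∀ b, r L b = true → r L' b = true) :
    lfp U r = U.filter (r (lfp U r)) := by
  set g : List β → List β := fun L => U.filter (r L) with hg
  have hmono : ∀ L L' : List β, (∀ b ∈ L, b ∈ L') → (g L).Sublist (g L') := by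
    intro L L' h
    exact List.monotone_filter_right _ (fun b hb => hr L L' h b hb)
  have hstep : ∀ k, (g^[k] []).Sublist (g^[k + 1] []) := by
    intro k
    induction k with
    | zero => exact List.nil_sublist _
    | succ k ih =>
      rw [Function.iterate_succ_apply', Function.iterate_succ_apply']
      exact hmono _ _ (fun b hb => ih.subset hb)
  have hU : ∀ k, (g^[k + 1] []).Sublist U := by
    intro k
    rw [Function.iterate_succ_apply']
    exact List.filter_sublist
  have hex : ∃ j ≤ U.length, g^[j] [] = g^[j + 1] [] := by
    by_contra hcon
    push Not at hcon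
    have hlen : ∀ j, j ≤ U.length + 1 → j ≤ (g^[j] []).length := by
      intro j
      induction j with
      | zero => intro _; exact Nat.zero_le _
      | succ j ih =>
        intro hj
        have h1 := ih (by omega)
        have h2 := (hstep j).length_le
        rcases Nat.lt_or_ge (g^[j] []).length (g^[j + 1] []).length with h3 | h3
        · omega
        · exact absurd ((hstep j).eq_of_length_le h3) (hcon j (by omega))
    have h1 := hlen (U.length + 1) le_rfl
    have h2 := (hU U.length).length_le
    omega
  obtain ⟨j, hj, he⟩ := hex
  rw [Function.iterate_succ_apply'] at he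
  have hstab : ∀ i, g^[j + i] [] = g^[j] [] := by
    intro i
    induction i with
    | zero => rfl
    | succ i ih =>
      rw [← add_assoc, Function.iterate_succ_apply', ih, ← he]
  have h1 : lfp U r = g^[U.length] [] := lfp_eq U r
  have h2 := hstab (U.length - j)
  have h3 := hstab (U.length - j + 1)
  rw [show j + (U.length - j) = U.length by omega] at h2
  rw [show j + (U.length - j + 1) = U.length + 1 by omega, Function.iterate_succ_apply'] at h3
  rw [h1]
  change _ = g _
  rw [h3, h2]

theorem mem_lfp {β : Type} {U : List β} {r : List β → β → Bool}
    (hr : ∀ L L' : List β, (∀ b ∈ L, b ∈ L') → ∀ b, r L b = true → r L' b = true) {b : β} :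
    b ∈ lfp U r ↔ b ∈ U ∧ r (lfp U r) b = true := by
  constructor
  · intro h
    rw [lfp_fixed hr, List.mem_filter] at h
    exact h
  · intro h
    rw [lfp_fixed hr, List.mem_filter]
    exact h

theorem lfp_induct {β : Type} {U : List β} {r : List β → β → Bool} {D : β → Prop}
    (h : ∀ L : List β, (∀ a ∈ L, D a) → ∀ b ∈ U, r L b = true → D b) : ∀ b ∈ lfp U r, D b := by
  rw [lfp_eq]
  generalize U.length = n
  induction n with
  | zero => intro b hb; simp at hb
  | succ n ih =>
    intro b hb
    rw [Function.iterate_succ_apply', List.mem_filter] at hb
    exact h _ ih b hb.1 hb.2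

theorem sz_filter_le {β : Type} [Code β] (p : β → Bool) (l : List β) : sz (l.filter p) ≤ sz l := by
  induction l with
  | nil => simp
  | cons b l ih =>
    rw [List.filter_cons]
    split
    · simp only [sz_cons]; omega
    · simp only [sz_cons]; omega

theorem PTime.lfp {α β : Type} [Code α] [Code β] {U : α → List β} {r : α → List β → β → Bool}
    (hU : PTime U) (hr : PTime (fun y : α × List β × β => r y.1 y.2.1 y.2.2)) :
    PTime (fun x => MP_c4d05f_lc.lfp (U x) (r x)) := by
  unfold MP_c4d05f_lc.lfp
  refine PTime.foldl (f := fun y : α × List β × β => (U y.1).filter (r y.1 y.2.1)) hU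
    (PTime.const []) ?_ (B := fun x => sz (U x)) hU.sz_le ?_
  · exact PTime.filter (l := fun y : α × List β × β => U y.1)
      (p := fun (y : α × List β × β) (b : β) => r y.1 y.2.1 b) (hU.comp PTime.fst)
      (hr.comp (f := fun z : (α × List β × β) × β => (z.1.1, z.1.2.1, z.2)) (by fun_prop))
  · intro x l' _
    rw [foldl_const (fun L => (U x).filter (r x L))]
    cases l'.length with
    | zero => exact sz_pos (U x)
    | succ n =>
      rw [Function.iterate_succ_apply']
      exact sz_filter_le _ _

end Pool.Agent.Work.MP_c4d05f_lc
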