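import Pool.Agent.Work.MP_c4d05f_lc.Alg
import Pool.Agent.Work.MP_c4d05f_lc.Col

/-!
What the parts of the algorithm compute.
-/

set_option autoImplicit false

namespace Pool.Agent.Work.MP_c4d05f_lc

open Pool.Agent.Work.PolyTime

theorem adjB_iff {x : Inp} {u v : ℕ} : adjB x u v = true ↔
    u < x.1 ∧ v < x.1 ∧ u ≠ v ∧ ((u, v) ∈ x.2 ∨ (v, u) ∈ x.2) := by
  simp only [adjB, Bool.and_eq_true, decide_eq_true_eq, Bool.not_eq_true', decide_eq_false_iff_not,
    Bool.or_eq_true, memB_iff, ne_eq]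

/-- The input graph, on the natural numbers. -/
def ng (x : Inp) : SimpleGraph ℕ where
  Adj u v := adjB x u v = true
  symm := ⟨fun u v h => by
    rw [adjB_iff] at h ⊢
    exact ⟨h.2.1, h.1, h.2.2.1.symm, h.2.2.2.symm⟩⟩
  loopless := ⟨fun u h => by
    rw [adjB_iff] at h
    exact h.2.2.1 rfl⟩

theorem ng_adj {x : Inp} {u v : ℕ} : (ng x).Adj u v ↔ adjB x u v = true := Iff.rfl

/-- The set of the elements of a list. -/
abbrev st (A : List ℕ) : Set ℕ := {u | u ∈ A}

/-- The facts in a list. -/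
abbrev lf (I : List (ℕ × Bool)) : ℕ → Bool → Prop := fun w c => (w, c) ∈ I

theorem ruleB_true {x : Inp} {A : List ℕ} {I S : List (ℕ × Bool)} {w : ℕ} :
    ruleB x A I S (w, true) = true ↔ (w, true) ∈ I ∨ ∃ u ∈ A, (u, false) ∈ S ∧ (ng x).Adj u w := by
  simp only [ruleB, Bool.or_eq_true, memB_iff, cond_true, List.any_eq_true, Bool.and_eq_true,
    ng_adj]

theorem ruleB_false {x : Inp} {A : List ℕ} {I S : List (ℕ × Bool)} {w : ℕ} :
    ruleB x A I S (w, false) = true ↔ (w, false) ∈ I ∨ ∃ u ∈ A, (u, true) ∈ S ∧ (ng x).Adj u w ∧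
      ((∃ z ∈ A, (z, true) ∈ S ∧ z ≠ u ∧ z ≠ w ∧ ((ng x).Adj z w ∨ (ng x).Adj z u)) ∨
        ∃ c ∈ A, ∃ d ∈ A, (ng x).Adj w c ∧ (ng x).Adj c d ∧ (ng x).Adj d u ∧ u ≠ c ∧ w ≠ d) := by
  simp only [ruleB, whiteB, Bool.or_eq_true, memB_iff, cond_false, List.any_eq_true,
    Bool.and_eq_true, ng_adj, Bool.not_eq_true', decide_eq_false_iff_not, ne_eq]

theorem ruleB_mono {x : Inp} {A : List ℕ} {I : List (ℕ × Bool)} (L L' : List (ℕ × Bool))
    (h : ∀ b ∈ L, b ∈ L') (b : ℕ × Bool) (hb : ruleB x A I L b = true) :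
    ruleB x A I L' b = true := by
  obtain ⟨w, c⟩ := b
  cases c with
  | true =>
    rw [ruleB_true] at hb ⊢
    rcases hb with hb | ⟨u, hu, hu', hadj⟩
    · exact Or.inl hb
    · exact Or.inr ⟨u, hu, h _ hu', hadj⟩
  | false =>
    rw [ruleB_false] at hb ⊢
    rcases hb with hb | ⟨u, hu, hu', hadj, hb⟩
    · exact Or.inl hb
    · refine Or.inr ⟨u, hu, h _ hu', hadj, ?_⟩
      rcases hb with ⟨z, hz, hz', hz2⟩ | hb
      · exact Or.inl ⟨z, hz, h _ hz', hz2⟩
      · exact Or.inr hb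

theorem mem_factU {A : List ℕ} {w : ℕ} {c : Bool} : (w, c) ∈ factU A ↔ w ∈ A := by
  simp only [factU, List.mem_flatMap, List.mem_cons, Prod.mk.injEq, List.not_mem_nil, or_false]
  constructor
  · rintro ⟨a, ha, ⟨rfl, -⟩ | ⟨rfl, -⟩⟩ <;> exact ha
  · intro h
    exact ⟨w, h, by cases c <;> simp⟩

theorem mem_facts {x : Inp} {A : List ℕ} {I : List (ℕ × Bool)} {w : ℕ} {c : Bool} :
    (w, c) ∈ facts x A I ↔ Fact (ng x) (st A) (lf I) w c := by
  constructor
  · intro h
    have key : ∀ f ∈ facts x A I, Fact (ng x) (st A) (lf I) f.1 f.2 := by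
      refine lfp_induct (D := fun f : ℕ × Bool => Fact (ng x) (st A) (lf I) f.1 f.2) ?_
      rintro L hL ⟨w, c⟩ hb hr
      have hw : w ∈ A := mem_factU.1 hb
      cases c with
      | true =>
        rcases ruleB_true.1 hr with h | ⟨u, hu, hu', hadj⟩
        · exact Fact.init hw h
        · exact Fact.black hw (hL _ hu') hadj
      | false =>
        rcases ruleB_false.1 hr with h | ⟨u, hu, hu', hadj, h⟩
        · exact Fact.init hw h
        · rcases h with ⟨z, hz, hz', hzu, hzw, h⟩ | ⟨c, hc, d, hd, h1, h2, h3, h4, h5⟩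
          · exact Fact.white2 hw (hL _ hu') (hL _ hz') hadj hzu hzw h
          · exact Fact.white4 hw (hL _ hu') hadj hc hd h1 h2 h3 h4 h5
    exact key _ h
  · intro h
    have hU : ∀ {w : ℕ} {c : Bool}, w ∈ st A → ruleB x A I (facts x A I) (w, c) = true →
        (w, c) ∈ facts x A I := fun hw hr => (mem_lfp ruleB_mono).2 ⟨mem_factU.2 hw, hr⟩
    induction h with
    | @init w c hw hi =>
      refine hU hw ?_
      cases c with
      | true => exact ruleB_true.2 (Or.inl hi)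
      | false => exact ruleB_false.2 (Or.inl hi)
    | @black u w hw hu hadj ih =>
      exact hU hw (ruleB_true.2 (Or.inr ⟨u, hu.mem, ih, hadj⟩))
    | @white2 u z w hw hu hz hadj hzu hzw h ihu ihz =>
      exact hU hw (ruleB_false.2 (Or.inr ⟨u, hu.mem, ihu, hadj,
        Or.inl ⟨z, hz.mem, ihz, hzu, hzw, h⟩⟩))
    | @white4 u w c d hw hu hadj hc hd h1 h2 h3 h4 h5 ihu =>
      exact hU hw (ruleB_false.2 (Or.inr ⟨u, hu.mem, ihu, hadj,
        Or.inr ⟨c, hc, d, hd, h1, h2, h3, h4, h5⟩⟩))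

theorem mem_reachL {x : Inp} {A : List ℕ} {v : ℕ} (hv : v ∈ A) {w : ℕ} :
    w ∈ reachL x A v ↔ Reach (ng x) (st A) v w := by
  have hmono : ∀ L L' : List ℕ, (∀ b ∈ L, b ∈ L') → ∀ b,
      (decide (b = v) || L.any fun a => adjB x a b) = true →
      (decide (b = v) || L'.any fun a => adjB x a b) = true := by
    intro L L' h b hb
    simp only [Bool.or_eq_true, decide_eq_true_eq, List.any_eq_true] at hb ⊢
    exact hb.imp id (fun ⟨a, ha, h'⟩ => ⟨a, h a ha, h'⟩)
  constructor
  · intro h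
    have key : ∀ w ∈ reachL x A v, Reach (ng x) (st A) v w := by
      refine lfp_induct (D := fun w => Reach (ng x) (st A) v w) ?_
      intro L hL b hb hr
      simp only [Bool.or_eq_true, decide_eq_true_eq, List.any_eq_true] at hr
      rcases hr with rfl | ⟨a, ha, hadj⟩
      · exact Relation.ReflTransGen.refl
      · exact (hL a ha).tail ⟨hadj, hb⟩
    exact key _ h
  · intro h
    induction h with
    | refl => exact (mem_lfp hmono).2 ⟨hv, by simp⟩
    | @tail a b _ hab ih =>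
      refine (mem_lfp hmono).2 ⟨hab.2, ?_⟩
      simp only [Bool.or_eq_true, decide_eq_true_eq, List.any_eq_true]
      exact Or.inr ⟨a, ih, hab.1⟩

theorem reachL_subset {x : Inp} {A : List ℕ} {v : ℕ} {w : ℕ} (h : w ∈ reachL x A v) : w ∈ A := by
  refine lfp_induct (D := fun w => w ∈ A) ?_ w h
  intro L _ b hb _
  exact hb

theorem flagB_iff {x : Inp} {A : List ℕ} {I : List (ℕ × Bool)} {w : ℕ} :
    flagB x A (facts x A I) w = true ↔ Flag (ng x) (Fact (ng x) (st A) (lf I)) w := by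
  simp only [flagB, Bool.and_eq_true, memB_iff, mem_facts, Bool.not_eq_true', Flag]
  refine and_congr_right fun _ => ?_
  rw [← Bool.not_eq_true, List.any_eq_true]
  simp only [Bool.and_eq_true, memB_iff, mem_facts]
  constructor
  · intro h u hadj hu
    exact h ⟨u, hu.mem, hadj, hu⟩
  · rintro h ⟨u, -, hadj, hu⟩
    exact h u hadj hu

theorem mem_aliveL {x : Inp} {A : List ℕ} {I : List (ℕ × Bool)} {w : ℕ} :
    w ∈ aliveL x A (facts x A I) ↔
      w ∈ AliveSet (ng x) (st A) (Fact (ng x) (st A) (lf I)) := by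
  simp only [aliveL, List.mem_filter, Bool.or_eq_true, Bool.and_eq_true, Bool.not_eq_true',
    flagB_iff, AliveSet, Set.mem_ofPred_eq]
  refine and_congr_right fun _ => or_congr_left ?_
  rw [← Bool.not_eq_true, ← Bool.not_eq_true, memB_iff, memB_iff, mem_facts, mem_facts]

theorem consB_iff {x : Inp} {A : List ℕ} {I : List (ℕ × Bool)} :
    consB A (facts x A I) = true ↔ ∀ w, ¬ (Fact (ng x) (st A) (lf I) w true ∧
      Fact (ng x) (st A) (lf I) w false) := by
  simp only [consB, List.all_eq_true, Bool.not_eq_true']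
  constructor
  · intro h w hw
    have h1 := h w hw.1.mem
    rw [← Bool.not_eq_true, Bool.and_eq_true, memB_iff, memB_iff, mem_facts, mem_facts] at h1
    exact h1 hw
  · intro h w _
    rw [← Bool.not_eq_true, Bool.and_eq_true, memB_iff, memB_iff, mem_facts, mem_facts]
    exact h w

end Pool.Agent.Work.MP_c4d05f_lc
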