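import Pool.Agent.Work.MP_c4d05f_lc.N.Stage1
import Pool.Agent.Work.MP_c4d05f_lc.N.Alg.Final
import Pool.Agent.Work.MP_c4d05f_lc.N.Cls
import Pool.Agent.Work.PolyTime.NPClose

/-!
Dominating induced matchings are decided in polynomial time on graphs without an induced
`S_{i,j,k}` and without an induced net with legs of length `l`, for all fixed `i, j, k, l`.

`graphOf` and `IsDIM` are defined in `Pool.Agent.Work.MP_c4d05f_lc.Final`, `spider` and `netG` in
`Pool.Agent.Work.MP_c4d05f_lc.N.Cls`, polynomial-time computability (with the machines
`Turing.TM2ComputableInPolyTime` of Mathlib) in `Pool.Agent.Work.PolyTime.ETR`.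
-/

set_option autoImplicit false

namespace Pool.Agent.Results.MP_c4d05f_lc.NetFree

open Pool.Agent.Work.PolyTime
open Pool.Agent.Work.MP_c4d05f_lc
open Pool.Agent.Work.MP_c4d05f_lc.N (spider netG)

/-! Encoding of graphs by bit strings. -/

/-- A number is written in unary, `n` as `1010...100`. -/
def encNum : ℕ → List Bool
  | 0 => [false]
  | n + 1 => true :: false :: encNum n

/-- A list of edges is written by writing `1`, `1` and the two ends before each of its elements and
`0` at the end. -/
def encEdges : List (ℕ × ℕ) → List Bool
  | [] => [false]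
  | e :: l => true :: ((true :: (encNum e.1 ++ encNum e.2)) ++ encEdges l)

/-- The bit string of a graph given by the number of vertices and the list of edges. -/
def encGraph (n : ℕ) (E : List (ℕ × ℕ)) : List Bool := true :: (encNum n ++ encEdges E)

/-- The graph `G` has a dominating induced matching. -/
def HasDIM {V : Type} (G : SimpleGraph V) : Prop := ∃ M : Set (Sym2 V), IsDIM G M

/-- The graph `G` is `H`-free: no induced subgraph of `G` is isomorphic to `H`. -/
def IndFree {U V : Type} (H : SimpleGraph U) (G : SimpleGraph V) : Prop := IsEmpty (H ↪g G)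

/-! The encoding is the one used in the proof. -/

theorem encNum_eq (n : ℕ) : encNum n = (code n).ser := by
  induction n with
  | zero => rfl
  | succ n ih => rw [encNum, ih]; rfl

theorem encEdges_eq (l : List (ℕ × ℕ)) : encEdges l = (code l).ser := by
  induction l with
  | nil => rfl
  | cons e l ih =>
    rw [encEdges, ih, encNum_eq, encNum_eq]
    rfl

theorem encGraph_eq (n : ℕ) (E : List (ℕ × ℕ)) : encGraph n E = (code (n, E)).ser := by
  rw [encGraph, encNum_eq, encEdges_eq]
  rfl

/-- A test of inputs decided in polynomial time gives a test of words. -/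
theorem word_test {t : Inp → Bool} (ht : PTime t) : ∃ f : List Bool → Bool,
    PolyTimeComputable (fun w => [f w]) ∧
    ∀ (n : ℕ) (E : List (ℕ × ℕ)), f (encGraph n E) = t (n, E) := by
  refine ⟨fun w => ((parseW Inp w).bind fun b => some (t b)).getD false, ?_, ?_⟩
  · refine polyTimeComputable_of_PTime_word ?_
    refine PTime.cons ?_ (PTime.const [])
    exact PTime.parseTest (t := fun (_ : List Bool) (b : Inp) => t b) PTime.id
      (ht.comp PTime.snd)
  · intro n E
    simp only [encGraph_eq, parseW_ser, Option.bind_some, Option.getD_some]

/-- **Main theorem.** For all `i, j, k, l` there is a polynomial-time algorithm that decides for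
every graph without an induced `S_{i,j,k}` and without an induced net with legs of length `l`
whether it has a dominating induced matching. -/
theorem result (i j k l : ℕ) :
    ∃ f : List Bool → Bool, PolyTimeComputable (fun w => [f w]) ∧
      ∀ (n : ℕ) (E : List (ℕ × ℕ)), IndFree (spider i j k) (graphOf n E) →
        IndFree (netG l) (graphOf n E) →
        (f (encGraph n E) = true ↔ HasDIM (graphOf n E)) := by
  obtain ⟨w, hw⟩ := N.havenThm_one (max (max i j) (max k l))
  obtain ⟨h1, h2⟩ := N.poly_of_haven (N.clsSL_closed (max (max i j) (max k l))) hw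
  obtain ⟨f, hf, hf1⟩ := word_test h1
  refine ⟨f, hf, fun n E hS hL => ?_⟩
  rw [hf1]
  refine h2 (n, E) ⟨fun h => ?_, fun h => ?_⟩
  · obtain ⟨g⟩ := N.spider_of_hasS (i := i) (j := j) (k := k) (by omega) (by omega) (by omega) h
    exact hS.false g
  · obtain ⟨g⟩ := N.net_of_hasL (N.hasL_mono (l := l) (by omega) h)
    exact hL.false g

end Pool.Agent.Results.MP_c4d05f_lc.NetFree
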