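import Pool.Agent.Work.MP_c4d05f_lc.Defs

/-!
Ramsey's theorem for 4-tuples of natural numbers, finite version, by ultrafilters.
-/

set_option autoImplicit false

namespace Pool.Agent.Work.MP_c4d05f_lc

theorem ram_lim {C : Type} [Finite C] (U : Ultrafilter ℕ) (g : ℕ → C) :
    ∃ c : C, ∀ᶠ n in (U : Filter ℕ), g n = c := by
  obtain ⟨a, ha⟩ := Ultrafilter.eq_pure_of_finite (U.map g)
  refine ⟨a, ?_⟩
  have h1 : ({a} : Set C) ∈ U.map g := by
    rw [ha]
    exact Set.mem_singleton a
  exact h1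

theorem ramsey4_inf (C : Type) [Finite C] (c : ℕ → ℕ → ℕ → ℕ → C) :
    ∃ (f : ℕ → ℕ) (k : C), StrictMono f ∧
      ∀ p q r s, p < q → q < r → r < s → c (f p) (f q) (f r) (f s) = k := by
  classical
  set U : Ultrafilter ℕ := Filter.hyperfilter ℕ with hU
  choose c3 h3 using fun a b d => ram_lim U (fun n => c a b d n)
  choose c2 h2 using fun a b => ram_lim U (fun n => c3 a b n)
  choose c1 h1 using fun a => ram_lim U (fun n => c2 a n)
  obtain ⟨c0, h0⟩ := ram_lim U c1
  have hbig : ∀ m : ℕ, ∀ᶠ n in (U : Filter ℕ), m < n := by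
    intro m
    have h : {n : ℕ | m < n} ∈ Filter.cofinite := by
      rw [Filter.mem_cofinite]
      apply (Set.finite_Iic m).subset
      intro n hn
      simp only [Set.mem_compl_iff, Set.mem_ofPred_eq, not_lt] at hn
      exact hn
    exact Filter.hyperfilter_le_cofinite h
  have key : ∀ S : Finset ℕ, ∃ n : ℕ, (∀ a ∈ S, a < n) ∧ c1 n = c0 ∧ (∀ a ∈ S, c2 a n = c1 a) ∧
      (∀ a ∈ S, ∀ b ∈ S, c3 a b n = c2 a b) ∧
      (∀ a ∈ S, ∀ b ∈ S, ∀ d ∈ S, c a b d n = c3 a b d) := by
    intro S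
    have e1 : ∀ᶠ n in (U : Filter ℕ), ∀ a ∈ S, a < n :=
      (Filter.eventually_all_finset S).2 fun a _ => hbig a
    have e2 : ∀ᶠ n in (U : Filter ℕ), ∀ a ∈ S, c2 a n = c1 a :=
      (Filter.eventually_all_finset S).2 fun a _ => h1 a
    have e3 : ∀ᶠ n in (U : Filter ℕ), ∀ a ∈ S, ∀ b ∈ S, c3 a b n = c2 a b :=
      (Filter.eventually_all_finset S).2 fun a _ =>
        (Filter.eventually_all_finset S).2 fun b _ => h2 a b
    have e4 : ∀ᶠ n in (U : Filter ℕ), ∀ a ∈ S, ∀ b ∈ S, ∀ d ∈ S, c a b d n = c3 a b d :=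
      (Filter.eventually_all_finset S).2 fun a _ =>
        (Filter.eventually_all_finset S).2 fun b _ =>
          (Filter.eventually_all_finset S).2 fun d _ => h3 a b d
    exact (e1.and (h0.and (e2.and (e3.and e4)))).exists
  choose g g1 g2 g3 g4 g5 using key
  let S : ℕ → Finset ℕ := fun n => Nat.rec ∅ (fun _ T => insert (g T) T) n
  have hS : ∀ n, S (n + 1) = insert (g (S n)) (S n) := fun n => rfl
  have hmem : ∀ m n, m < n → g (S m) ∈ S n := by
    intro m n hmn
    induction n with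
    | zero => omega
    | succ n ih =>
      rw [hS, Finset.mem_insert]
      rcases Nat.lt_succ_iff_lt_or_eq.1 hmn with h | h
      · exact Or.inr (ih h)
      · left
        rw [h]
  refine ⟨fun n => g (S n), c0, ?_, ?_⟩
  · apply strictMono_nat_of_lt_succ
    intro n
    exact g1 _ _ (hmem n (n + 1) (Nat.lt_succ_self n))
  · intro p q r s hpq hqr hrs
    have hp : g (S p) ∈ S s := hmem p s (by omega)
    have hq : g (S q) ∈ S s := hmem q s (by omega)
    have hr : g (S r) ∈ S s := hmem r s (by omega)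
    have e1 := g5 (S s) _ hp _ hq _ hr
    have e2 := g4 (S r) _ (hmem p r (by omega)) _ (hmem q r (by omega))
    have e3 := g3 (S q) _ (hmem p q (by omega))
    have e4 := g2 (S p)
    simp only
    rw [e1, e2, e3, e4]

/-- Ramsey's theorem for 4-tuples, finite version. -/
theorem ramsey4 (C : Type) [Finite C] (M : ℕ) :
    ∃ N : ℕ, ∀ c : ℕ → ℕ → ℕ → ℕ → C, ∃ (f : ℕ → ℕ) (k : C), StrictMono f ∧
      (∀ i < M, f i < N) ∧
      ∀ p q r s, p < q → q < r → r < s → s < M → c (f p) (f q) (f r) (f s) = k := by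
  classical
  by_contra hcon
  push Not at hcon
  choose c hc using hcon
  set U : Ultrafilter ℕ := Filter.hyperfilter ℕ with hU
  choose d hd using fun p : ℕ × ℕ × ℕ × ℕ => ram_lim U (fun n => c n p.1 p.2.1 p.2.2.1 p.2.2.2)
  obtain ⟨f, k, hf, hk⟩ := ramsey4_inf C (fun p q r s => d (p, q, r, s))
  have hbig : ∀ m : ℕ, ∀ᶠ n in (U : Filter ℕ), m < n := by
    intro m
    have h : {n : ℕ | m < n} ∈ Filter.cofinite := by
      rw [Filter.mem_cofinite]
      apply (Set.finite_Iic m).subset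
      intro n hn
      simp only [Set.mem_compl_iff, Set.mem_ofPred_eq, not_lt] at hn
      exact hn
    exact Filter.hyperfilter_le_cofinite h
  have e1 : ∀ᶠ n in (U : Filter ℕ), ∀ i ∈ Finset.range M, f i < n :=
    (Filter.eventually_all_finset _).2 fun i _ => hbig (f i)
  have e2 : ∀ᶠ n in (U : Filter ℕ), ∀ p ∈ Finset.range M, ∀ q ∈ Finset.range M,
      ∀ r ∈ Finset.range M, ∀ s ∈ Finset.range M,
        c n (f p) (f q) (f r) (f s) = d (f p, f q, f r, f s) :=
    (Filter.eventually_all_finset _).2 fun p _ =>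
      (Filter.eventually_all_finset _).2 fun q _ =>
        (Filter.eventually_all_finset _).2 fun r _ =>
          (Filter.eventually_all_finset _).2 fun s _ => hd (f p, f q, f r, f s)
  obtain ⟨n, hn1, hn2⟩ := (e1.and e2).exists
  obtain ⟨p, q, r, s, hpq, hqr, hrs, hs, hne⟩ := hc n f k hf
    (fun i hi => hn1 i (Finset.mem_range.2 hi))
  apply hne
  rw [hn2 p (Finset.mem_range.2 (by omega)) q (Finset.mem_range.2 (by omega)) r
    (Finset.mem_range.2 (by omega)) s (Finset.mem_range.2 (by omega))]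
  exact hk p q r s hpq hqr hrs

end Pool.Agent.Work.MP_c4d05f_lc
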