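import Pool.Agent.Work.MP_c4d05f_lc.Spec

/-!
If the algorithm accepts then there is a solution.
-/

set_option autoImplicit false

namespace Pool.Agent.Work.MP_c4d05f_lc

open Pool.Agent.Work.PolyTime

theorem Reach.in_comp {V : Type*} {G : SimpleGraph V} {A : Set V} {a b : V}
    (h : Reach G A a b) : Reach G (Comp G A a) a b := by
  induction h with
  | refl => exact Relation.ReflTransGen.refl
  | @tail b c h1 h2 ih => exact ih.tail ⟨h2.1, h1.tail h2⟩

/-- The alive set after the choice `y`. -/
abbrev alv (x : Inp) (q : List ℕ × List ℕ × ℕ) (y : ℕ) : Set ℕ :=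
  AliveSet (ng x) (st q.1) (Fact (ng x) (st q.1) (lf (initL q.2.1 q.2.2 y)))

theorem st_newK {x : Inp} {q : List ℕ × List ℕ × ℕ} {y w : ℕ} (hw : w ∈ alv x q y) :
    st (newK x q y w) = Comp (ng x) (alv x q y) w := by
  have hA : st (aliveL x q.1 (newS x q y)) = alv x q y := by
    ext u
    exact mem_aliveL
  ext u
  have h : u ∈ newK x q y w ↔ Reach (ng x) (st (aliveL x q.1 (newS x q y))) w u := by
    unfold newK
    exact mem_reachL (mem_aliveL.2 hw)
  rw [hA] at h
  exact h

theorem initL_mem {R : List ℕ} {v y : ℕ} {w : ℕ} {c : Bool} : (w, c) ∈ initL R v y ↔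
    (y = v ∧ w = v ∧ c = false) ∨ (y ≠ v ∧ (w = v ∨ w = y) ∧ c = true) ∨ (w ∈ R ∧ c = true) := by
  unfold initL
  by_cases h : y = v
  · simp [h, and_comm, eq_comm]
  · simp only [h, decide_false, cond_false, List.mem_append, List.mem_cons, Prod.mk.injEq,
      List.not_mem_nil, or_false, List.mem_map, false_and, false_or, ne_eq, not_false_eq_true,
      true_and]
    constructor
    · rintro ((⟨h1, h2⟩ | ⟨h1, h2⟩) | ⟨a, ha, rfl, h2⟩)
      · exact Or.inl ⟨Or.inl h1, h2⟩
      · exact Or.inl ⟨Or.inr h1, h2⟩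
      · exact Or.inr ⟨ha, h2.symm⟩
    · rintro (⟨h1 | h1, h2⟩ | ⟨ha, h2⟩)
      · exact Or.inl (Or.inl ⟨h1, h2⟩)
      · exact Or.inl (Or.inr ⟨h1, h2⟩)
      · exact Or.inr ⟨w, ha, rfl, h2.symm⟩

theorem mem_choices {x : Inp} {q : List ℕ × List ℕ × ℕ} {y : ℕ} :
    y ∈ choices x q ↔ y ∈ q.1 ∧ (y = q.2.2 ∨ (ng x).Adj q.2.2 y) := by
  simp only [choices, List.mem_filter, Bool.or_eq_true, decide_eq_true_eq, ng_adj]

/-- After the choice, `v` is decided and not flagged. -/
theorem not_alive {x : Inp} {q : List ℕ × List ℕ × ℕ} {y : ℕ} (hv : q.2.2 ∈ q.1)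
    (hy : y ∈ choices x q) (hc : consB q.1 (newS x q y) = true) : q.2.2 ∉ alv x q y := by
  have hcons := consB_iff.1 hc
  rw [mem_choices] at hy
  intro hal
  by_cases h : y = q.2.2
  · have h1 : Fact (ng x) (st q.1) (lf (initL q.2.1 q.2.2 y)) q.2.2 false :=
      Fact.init hv (initL_mem.2 (Or.inl ⟨h, rfl, rfl⟩))
    rcases hal.2 with h2 | h2
    · exact h2.2 h1
    · exact hcons _ ⟨h2.1, h1⟩
  · have h1 : Fact (ng x) (st q.1) (lf (initL q.2.1 q.2.2 y)) q.2.2 true :=
      Fact.init hv (initL_mem.2 (Or.inr (Or.inl ⟨h, Or.inl rfl, rfl⟩)))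
    have h3 : Fact (ng x) (st q.1) (lf (initL q.2.1 q.2.2 y)) y true :=
      Fact.init hy.1 (initL_mem.2 (Or.inr (Or.inl ⟨h, Or.inr rfl, rfl⟩)))
    rcases hal.2 with h2 | h2
    · exact h2.1 h1
    · exact h2.2 y (hy.2.resolve_left h) h3

theorem validB_iff {x : Inp} {q : List ℕ × List ℕ × ℕ} {y w : ℕ} (hv : q.2.2 ∈ q.1)
    (hva : q.2.2 ∉ alv x q y) (hw : w ∈ alv x q y) : validB x q y w = true ↔
      Flag (ng x) (Fact (ng x) (st q.1) (lf (initL q.2.1 q.2.2 y))) w ∧
      ∃ u, Reach (ng x) (st q.1 \ Comp (ng x) (alv x q y) w) q.2.2 u ∧ (ng x).Adj u w := by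
  have hset : st (q.1.filter fun u => !(memB u (newK x q y w))) =
      st q.1 \ Comp (ng x) (alv x q y) w := by
    rw [← st_newK hw]
    ext u
    simp only [Set.mem_ofPred_eq, List.mem_filter, Bool.not_eq_true', Set.mem_sdiff]
    refine and_congr_right fun _ => ?_
    rw [← Bool.not_eq_true, memB_iff]
  have hmem : q.2.2 ∈ (q.1.filter fun u => !(memB u (newK x q y w))) := by
    have : q.2.2 ∈ st (q.1.filter fun u => !(memB u (newK x q y w))) := by
      rw [hset]
      exact ⟨hv, fun h => hva (comp_subset hw h)⟩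
    exact this
  unfold validB
  rw [Bool.and_eq_true, List.any_eq_true]
  refine and_congr flagB_iff ?_
  constructor
  · rintro ⟨u, hu, hadj⟩
    rw [mem_reachL hmem, hset] at hu
    exact ⟨u, hu, hadj⟩
  · rintro ⟨u, hu, hadj⟩
    refine ⟨u, ?_, hadj⟩
    rw [mem_reachL hmem, hset]
    exact hu

theorem solve_sound (x : Inp) : ∀ (d : ℕ) (q : List ℕ × List ℕ × ℕ), q.2.2 ∈ q.1 →
    (∀ w ∈ q.1, Reach (ng x) (st q.1) q.2.2 w) → solve x d q = true →
    ∃ β, Col (ng x) (st q.1) β ∧ ∀ w ∈ q.2.1, w ∈ q.1 → w ∈ β := by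
  intro d
  induction d with
  | zero => intro q _ _ h; simp [solve] at h
  | succ d ih =>
    intro q hv hcon h
    simp only [solve, List.any_eq_true, Bool.and_eq_true, List.all_eq_true, Bool.or_eq_true,
      Bool.not_eq_true'] at h
    obtain ⟨y, hy, hc, hall⟩ := h
    have hcons := consB_iff.1 hc
    have hva := not_alive hv hy hc
    obtain ⟨β, hβ, hβt⟩ := glue (G := ng x) (A := st q.1) (I := lf (initL q.2.1 q.2.2 y)) hcons
      (by
        intro w₀ hw₀
        obtain ⟨w, hwK, hfl, hu⟩ := exists_entry (v := q.2.2) hv hva hcon hw₀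
        have hw : w ∈ alv x q y := comp_subset hw₀ hwK
        have hKeq : Comp (ng x) (alv x q y) w = Comp (ng x) (alv x q y) w₀ := comp_eq hw₀ hwK
        have hval : validB x q y w = true := by
          rw [validB_iff hv hva hw, hKeq]
          exact ⟨hfl, hu⟩
        have hsol : solve x d (nextQ x q y w) = true := by
          rcases hall w hw.1 with h | h
          · rw [hval] at h; exact absurd h (by simp)
          · exact h
        have hK := st_newK hw
        have hself : w ∈ newK x q y w := by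
          have : w ∈ st (newK x q y w) := by rw [hK]; exact self_mem_comp w
          exact this
        obtain ⟨β, h1, h2⟩ := ih (nextQ x q y w) hself (by
          intro z hz
          change Reach (ng x) (st (newK x q y w)) w z
          rw [hK]
          have hz' : z ∈ st (newK x q y w) := hz
          rw [hK] at hz'
          exact Reach.in_comp hz') hsol
        change Col (ng x) (st (newK x q y w)) β at h1
        rw [hK, hKeq] at h1
        refine ⟨β, h1, fun z hz hzt => ?_⟩
        have hz' : z ∈ newK x q y w := by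
          have : z ∈ st (newK x q y w) := by rw [hK, hKeq]; exact hz
          exact this
        have hzfl : Flag (ng x) (Fact (ng x) (st q.1) (lf (initL q.2.1 q.2.2 y))) z := by
          rcases (comp_subset hw₀ hz).2 with h | h
          · exact absurd hzt h.1
          · exact h
        refine h2 z (List.mem_filter.2 ⟨hz', flagB_iff.2 hzfl⟩) hz')
    exact ⟨β, hβ, fun w hwR hwA => hβt w hwA
      (Fact.init hwA (initL_mem.2 (Or.inr (Or.inr ⟨hwR, rfl⟩))))⟩

theorem Fact.empty {V : Type*} {G : SimpleGraph V} {A : Set V} {w : V} {c : Bool}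
    (h : Fact G A (fun _ _ => False) w c) : False := by
  induction h with
  | init _ h => exact h
  | black _ _ _ ih => exact ih
  | white2 _ _ _ _ _ _ _ ih _ => exact ih
  | white4 _ _ _ _ _ _ _ _ _ _ ih => exact ih

theorem alive_empty {V : Type*} {G : SimpleGraph V} {A : Set V} :
    AliveSet G A (Fact G A (fun _ _ => False)) = A := by
  ext w
  exact ⟨fun h => h.1, fun h => ⟨h, Or.inl ⟨fun h => h.empty, fun h => h.empty⟩⟩⟩

theorem algo_sound {x : Inp} {d : ℕ} (h : algo d x = true) :
    ∃ β, Col (ng x) {u | u < x.1} β := by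
  have hA : st (List.range x.1) = {u | u < x.1} := by
    ext u; simp
  obtain ⟨β, hβ, -⟩ := glue (G := ng x) (A := {u | u < x.1}) (I := fun _ _ => False)
    (fun w hw => hw.1.empty) (by
      intro w₀ hw₀
      rw [alive_empty] at hw₀ ⊢
      simp only [algo, List.all_eq_true] at h
      have hw₀' : w₀ ∈ List.range x.1 := List.mem_range.2 hw₀
      have h1 := h w₀ hw₀'
      have hK : st (reachL x (List.range x.1) w₀) = Comp (ng x) {u | u < x.1} w₀ := by
        ext u
        rw [← hA]
        exact mem_reachL hw₀'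
      obtain ⟨β, h2, -⟩ := solve_sound x d _ (by
        change w₀ ∈ st (reachL x (List.range x.1) w₀)
        rw [hK]; exact self_mem_comp w₀) (by
        intro z hz
        change Reach (ng x) (st (reachL x (List.range x.1) w₀)) w₀ z
        rw [hK]
        have hz' : z ∈ st (reachL x (List.range x.1) w₀) := hz
        rw [hK] at hz'
        exact Reach.in_comp hz') h1
      change Col (ng x) (st (reachL x (List.range x.1) w₀)) β at h2
      rw [hK] at h2
      exact ⟨β, h2, fun w _ hw => hw.empty.elim⟩)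
  exact ⟨β, hβ⟩

end Pool.Agent.Work.MP_c4d05f_lc
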